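import Mathlib

open Matrix MeasureTheory
open scoped ENNReal ComplexInnerProductSpace ComplexOrder

namespace Pool.Agent.H93M

variable {n : ℕ}

/-- the singular values -/
noncomputable def sv (A : Matrix (Fin n) (Fin n) ℂ) (i : Fin n) : ℝ :=
  Real.sqrt ((Matrix.isHermitian_conjTranspose_mul_self A).eigenvalues i)

/-- the `l_q` norm of a vector -/
noncomputable def L (q : ℝ≥0∞) (x : Fin n → ℝ) : ℝ :=
  ‖(WithLp.toLp q x : PiLp q (fun _ : Fin n => ℝ))‖

/-- the Schatten norm -/
noncomputable def schatten (q : ℝ≥0∞) (A : Matrix (Fin n) (Fin n) ℂ) : ℝ := L q (sv A)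

lemma L_top (x : Fin n → ℝ) : L ⊤ x = ⨆ i, |x i| := by
  unfold L; rw [PiLp.norm_eq_ciSup]; rfl

lemma L_lt {q : ℝ≥0∞} (h1 : 1 ≤ q) (h : q ≠ ⊤) (x : Fin n → ℝ) :
    L q x = (∑ i, |x i| ^ q.toReal) ^ (1 / q.toReal) := by
  have hq : 0 < q.toReal := ENNReal.toReal_pos (by positivity) h
  unfold L; rw [PiLp.norm_eq_sum hq]; rfl

lemma L_congr_map {q : ℝ≥0∞} (h1 : 1 ≤ q) {x y : Fin n → ℝ}
    (h : Multiset.map (fun i => |x i|) Finset.univ.val
      = Multiset.map (fun i => |y i|) Finset.univ.val) : L q x = L q y := by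
  by_cases hq : q = ⊤
  · subst hq
    rw [L_top, L_top]
    have : Set.range (fun i => |x i|) = Set.range (fun i => |y i|) := by
      ext a
      have h2 : a ∈ Multiset.map (fun i => |x i|) Finset.univ.val ↔
          a ∈ Multiset.map (fun i => |y i|) Finset.univ.val := by rw [h]
      simpa using h2
    unfold iSup; rw [this]
  · rw [L_lt h1 hq, L_lt h1 hq]
    congr 1
    have h2 := congrArg (fun s : Multiset ℝ => (s.map (fun a => a ^ q.toReal)).sum) h
    simp only [Multiset.map_map, Function.comp_def] at h2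
    exact h2

lemma L_mono {q : ℝ≥0∞} (h1 : 1 ≤ q) {x y : Fin n → ℝ} (h : ∀ i, |x i| ≤ |y i|) :
    L q x ≤ L q y := by
  by_cases hq : q = ⊤
  · subst hq
    rw [L_top, L_top]
    rcases isEmpty_or_nonempty (Fin n) with hn | hn
    · simp
    · exact ciSup_mono (Set.finite_range _).bddAbove h
  · rw [L_lt h1 hq, L_lt h1 hq]
    have hq0 : 0 < q.toReal := ENNReal.toReal_pos (by positivity) hq
    refine Real.rpow_le_rpow (by positivity) ?_ (by positivity)
    exact Finset.sum_le_sum fun i _ => Real.rpow_le_rpow (abs_nonneg _) (h i) hq0.le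

lemma L_nonneg (q : ℝ≥0∞) [Fact (1 ≤ q)] (x : Fin n → ℝ) : 0 ≤ L q x := norm_nonneg _

lemma L_add (q : ℝ≥0∞) [Fact (1 ≤ q)] (x y : Fin n → ℝ) :
    L q (fun i => x i + y i) ≤ L q x + L q y := by
  unfold L
  exact norm_add_le (WithLp.toLp q x : PiLp q (fun _ : Fin n => ℝ)) (WithLp.toLp q y)

lemma L_smul (q : ℝ≥0∞) [Fact (1 ≤ q)] (c : ℝ) (x : Fin n → ℝ) :
    L q (fun i => c * x i) = |c| * L q x := by
  unfold L
  exact norm_smul c (WithLp.toLp q x : PiLp q (fun _ : Fin n => ℝ))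

lemma le_L (q : ℝ≥0∞) [Fact (1 ≤ q)] (x : Fin n → ℝ) (i : Fin n) : |x i| ≤ L q x := by
  unfold L
  exact PiLp.norm_apply_le (WithLp.toLp q x : PiLp q (fun _ : Fin n => ℝ)) i

lemma L_le_sum (q : ℝ≥0∞) [Fact (1 ≤ q)] (x : Fin n → ℝ) : L q x ≤ ∑ i, |x i| := by
  have h : (WithLp.toLp q x : PiLp q (fun _ : Fin n => ℝ))
      = ∑ i, (WithLp.toLp q (Pi.single i (x i)) : PiLp q (fun _ : Fin n => ℝ)) := by
    rw [← WithLp.toLp_sum]
    congr 1
    ext j
    simp [Finset.sum_apply, Pi.single_apply]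
  unfold L
  rw [h]
  refine (norm_sum_le _ _).trans (Finset.sum_le_sum fun i _ => ?_)
  rw [← PiLp.single, PiLp.norm_single]
  exact le_of_eq (Real.norm_eq_abs _)

/-- Jensen for a doubly stochastic array -/
lemma L_ds {q : ℝ≥0∞} (h1 : 1 ≤ q) (w : Fin n → Fin n → ℝ) (hw : ∀ i j, 0 ≤ w i j)
    (hr : ∀ i, ∑ j, w i j = 1) (hc : ∀ j, ∑ i, w i j = 1) (m : Fin n → ℝ) :
    L q (fun i => ∑ j, w i j * m j) ≤ L q m := by
  have habs : ∀ i, |∑ j, w i j * m j| ≤ ∑ j, w i j * |m j| := fun i => by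
    refine (Finset.abs_sum_le_sum_abs _ _).trans (le_of_eq ?_)
    exact Finset.sum_congr rfl fun j _ => by rw [abs_mul, abs_of_nonneg (hw i j)]
  by_cases hq : q = ⊤
  · subst hq
    rw [L_top, L_top]
    rcases isEmpty_or_nonempty (Fin n) with hn | hn
    · simp
    · refine ciSup_le fun i => (habs i).trans ?_
      calc ∑ j, w i j * |m j| ≤ ∑ j, w i j * (⨆ k, |m k|) :=
            Finset.sum_le_sum fun j _ => mul_le_mul_of_nonneg_left
              (le_ciSup (Set.finite_range (fun k => |m k|)).bddAbove j) (hw i j)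
        _ = ⨆ k, |m k| := by rw [← Finset.sum_mul, hr, one_mul]
  · rw [L_lt h1 hq, L_lt h1 hq]
    have hq0 : 0 < q.toReal := ENNReal.toReal_pos (by positivity) hq
    have hq1 : 1 ≤ q.toReal := by
      rw [← ENNReal.toReal_one]; exact ENNReal.toReal_mono hq h1
    refine Real.rpow_le_rpow (by positivity) ?_ (by positivity)
    calc ∑ i, |∑ j, w i j * m j| ^ q.toReal ≤ ∑ i, (∑ j, w i j * |m j|) ^ q.toReal :=
          Finset.sum_le_sum fun i _ => Real.rpow_le_rpow (abs_nonneg _) (habs i) hq0.le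
      _ ≤ ∑ i, ∑ j, w i j * |m j| ^ q.toReal := Finset.sum_le_sum fun i _ =>
          Real.rpow_arith_mean_le_arith_mean_rpow _ _ _ (fun j _ => hw i j) (hr i)
            (fun j _ => abs_nonneg _) hq1
      _ = ∑ j, |m j| ^ q.toReal := by
          rw [Finset.sum_comm]
          exact Finset.sum_congr rfl fun j _ => by rw [← Finset.sum_mul, hc, one_mul]

/-- orthonormal bases -/
abbrev OB (n : ℕ) := OrthonormalBasis (Fin n) ℂ (EuclideanSpace ℂ (Fin n))

/-- `b` is an orthonormal eigenbasis with eigenvalues `m` -/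
def Eig (A : Matrix (Fin n) (Fin n) ℂ) (b : OB n) (m : Fin n → ℝ) : Prop :=
  ∀ j, Matrix.toEuclideanLin A (b j) = (m j : ℂ) • b j

/-- the quadratic form -/
noncomputable def qf (A : Matrix (Fin n) (Fin n) ℂ) (x : EuclideanSpace ℂ (Fin n)) : ℝ :=
  (⟪x, Matrix.toEuclideanLin A x⟫).re

lemma qf_add (A B : Matrix (Fin n) (Fin n) ℂ) (x) : qf (A + B) x = qf A x + qf B x := by
  simp [qf, map_add, LinearMap.add_apply, inner_add_right]

lemma qf_sub (A B : Matrix (Fin n) (Fin n) ℂ) (x) : qf (A - B) x = qf A x - qf B x := by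
  simp [qf, map_sub, LinearMap.sub_apply, inner_sub_right]

lemma qf_smul (c : ℝ) (A : Matrix (Fin n) (Fin n) ℂ) (x) : qf (c • A) x = c * qf A x := by
  have : c • A = (c : ℂ) • A := by ext i j; simp
  unfold qf
  rw [this, map_smul, LinearMap.smul_apply, inner_smul_right, Complex.re_ofReal_mul]

lemma qf_one (x : EuclideanSpace ℂ (Fin n)) : qf 1 x = ‖x‖ ^ 2 := by
  have : Matrix.toEuclideanLin (1 : Matrix (Fin n) (Fin n) ℂ) x = x := by
    ext i; simp [Matrix.toLpLin_apply]
  rw [qf, this, inner_self_eq_norm_sq_to_K]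
  norm_cast

lemma qf_eig {A : Matrix (Fin n) (Fin n) ℂ} {b : OB n} {m : Fin n → ℝ} (h : Eig A b m)
    (x : EuclideanSpace ℂ (Fin n)) : qf A x = ∑ j, ‖⟪b j, x⟫‖ ^ 2 * m j := by
  have hx : Matrix.toEuclideanLin A x = ∑ j, (⟪b j, x⟫ * (m j : ℂ)) • b j := by
    conv_lhs => rw [← b.sum_repr' x]
    rw [map_sum]
    exact Finset.sum_congr rfl fun j _ => by rw [map_smul, h j, smul_smul]
  unfold qf
  rw [hx, inner_sum, Complex.re_sum]
  refine Finset.sum_congr rfl fun j _ => ?_
  rw [inner_smul_right, ← inner_conj_symm x (b j)]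
  have : ⟪b j, x⟫ * (m j : ℂ) * (starRingEnd ℂ) ⟪b j, x⟫
      = ((‖⟪b j, x⟫‖ ^ 2 * m j : ℝ) : ℂ) := by
    rw [mul_right_comm, Complex.mul_conj, Complex.normSq_eq_norm_sq]; push_cast; ring
  rw [this, Complex.ofReal_re]

/-- **Peierls inequality**: the diagonal in any orthonormal basis. -/
lemma peierls {q : ℝ≥0∞} (h1 : 1 ≤ q) {A : Matrix (Fin n) (Fin n) ℂ} {b : OB n} {m : Fin n → ℝ}
    (h : Eig A b m) (c : OB n) : L q (fun i => qf A (c i)) ≤ L q m := by
  have : (fun i => qf A (c i)) = fun i => ∑ j, ‖⟪b j, c i⟫‖ ^ 2 * m j := by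
    ext i; exact qf_eig h _
  rw [this]
  refine L_ds h1 _ (fun i j => by positivity) (fun i => ?_) (fun j => ?_) m
  · rw [b.sum_sq_norm_inner_right, c.orthonormal.1 i]; norm_num
  · rw [c.sum_sq_norm_inner_left, b.orthonormal.1 j]; norm_num

lemma qf_eig_self {A : Matrix (Fin n) (Fin n) ℂ} {b : OB n} {m : Fin n → ℝ} (h : Eig A b m)
    (i : Fin n) : qf A (b i) = m i := by
  rw [qf, h i, inner_smul_right, inner_self_eq_norm_sq_to_K, b.orthonormal.1 i]
  simp

/-- the canonical eigenbasis -/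
lemma eig_canon {A : Matrix (Fin n) (Fin n) ℂ} (hA : A.IsHermitian) :
    Eig A hA.eigenvectorBasis hA.eigenvalues := by
  intro j
  have h := hA.mulVec_eigenvectorBasis j
  ext i
  have := congrFun h i
  simpa [Matrix.toLpLin_apply, Complex.real_smul] using this

lemma eig_cfc {A : Matrix (Fin n) (Fin n) ℂ} (hA : A.IsHermitian) (f : ℝ → ℝ) :
    Eig (cfc f A) hA.eigenvectorBasis (f ∘ hA.eigenvalues) := by
  intro j
  rw [hA.cfc_eq f]
  unfold Matrix.IsHermitian.cfc
  rw [Unitary.conjStarAlgAut_apply]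
  ext i
  rw [Matrix.toLpLin_apply]
  simp only [PiLp.smul_apply, smul_eq_mul]
  rw [← Matrix.mulVec_mulVec, ← Matrix.mulVec_mulVec]
  have h1 := hA.star_eigenvectorUnitary_mulVec j
  rw [h1, Matrix.diagonal_mulVec_single, ← hA.eigenvectorUnitary_mulVec j]
  simp [Matrix.mulVec_single]
  ring

/-- singular values of a Hermitian matrix -/
lemma sv_map {A : Matrix (Fin n) (Fin n) ℂ} (hA : A.IsHermitian) :
    Multiset.map (fun i => |sv A i|) Finset.univ.val
      = Multiset.map (fun i => |hA.eigenvalues i|) Finset.univ.val := by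
  have e1 : Aᴴ * A = cfc (fun x : ℝ => x ^ 2) A := by
    rw [hA.eq, cfc_pow_id (R := ℝ) A 2 hA.isSelfAdjoint, pow_two]
  have h1 := (Matrix.isHermitian_conjTranspose_mul_self A).roots_charpoly_eq_eigenvalues
  have h2 := hA.charpoly_cfc_eq (fun x : ℝ => x ^ 2)
  rw [← e1] at h2
  rw [h2, Polynomial.roots_prod] at h1
  · have h3 : Multiset.map (fun i => (((hA.eigenvalues i) ^ 2 : ℝ) : ℂ)) Finset.univ.val
        = Multiset.map (RCLike.ofReal ∘ (Matrix.isHermitian_conjTranspose_mul_self A).eigenvalues)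
          Finset.univ.val := by
      rw [← h1]
      simp only [Polynomial.roots_X_sub_C, Multiset.bind_singleton]
      rfl
    have h4 := congrArg (fun s : Multiset ℂ => s.map (fun z => Real.sqrt z.re)) h3
    simp only [Multiset.map_map, Function.comp_def] at h4
    have e2 : (fun i => |sv A i|) = fun i => Real.sqrt
        ((RCLike.ofReal ((Matrix.isHermitian_conjTranspose_mul_self A).eigenvalues i) : ℂ).re) := by
      ext i
      unfold sv
      rw [abs_of_nonneg (Real.sqrt_nonneg _)]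
      rfl
    have e3 : (fun i => |hA.eigenvalues i|)
        = fun i => Real.sqrt ((((hA.eigenvalues i) ^ 2 : ℝ) : ℂ).re) := by
      ext i
      rw [Complex.ofReal_re, Real.sqrt_sq_eq_abs]
    rw [e2, e3]
    exact h4.symm
  · rw [Finset.prod_ne_zero_iff]
    intro a _
    exact Polynomial.X_sub_C_ne_zero _

lemma schatten_canon {q : ℝ≥0∞} (h1 : 1 ≤ q) {A : Matrix (Fin n) (Fin n) ℂ}
    (hA : A.IsHermitian) : schatten q A = L q hA.eigenvalues := L_congr_map h1 (sv_map hA)

lemma schatten_eig {q : ℝ≥0∞} (h1 : 1 ≤ q) {A : Matrix (Fin n) (Fin n) ℂ}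
    (hA : A.IsHermitian) {b : OB n} {m : Fin n → ℝ} (h : Eig A b m) :
    schatten q A = L q m := by
  rw [schatten_canon h1 hA]
  apply le_antisymm
  · have := peierls h1 h hA.eigenvectorBasis
    simpa only [qf_eig_self (eig_canon hA)] using this
  · have := peierls h1 (eig_canon hA) b
    simpa only [qf_eig_self h] using this

lemma peierls' {q : ℝ≥0∞} (h1 : 1 ≤ q) {A : Matrix (Fin n) (Fin n) ℂ} (hA : A.IsHermitian)
    (c : OB n) : L q (fun i => qf A (c i)) ≤ schatten q A := by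
  rw [schatten_canon h1 hA]; exact peierls h1 (eig_canon hA) c

/-- triangle inequality for Hermitian matrices -/
lemma schatten_lin {q : ℝ≥0∞} [Fact (1 ≤ q)] {A B : Matrix (Fin n) (Fin n) ℂ}
    (hA : A.IsHermitian) (hB : B.IsHermitian) (a b : ℝ) :
    schatten q (a • A + b • B) ≤ |a| * schatten q A + |b| * schatten q B := by
  have h1 : 1 ≤ q := Fact.out
  have hM : (a • A + b • B).IsHermitian := by
    unfold Matrix.IsHermitian
    rw [Matrix.conjTranspose_add, Matrix.conjTranspose_smul, Matrix.conjTranspose_smul, hA.eq,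
      hB.eq]
    simp
  rw [schatten_canon h1 hM]
  have e : hM.eigenvalues = fun i => a * qf A (hM.eigenvectorBasis i)
      + b * qf B (hM.eigenvectorBasis i) := by
    ext i
    rw [← qf_eig_self (eig_canon hM) i, qf_add, qf_smul, qf_smul]
  rw [e]
  refine (L_add q _ _).trans ?_
  rw [L_smul, L_smul]
  exact add_le_add (mul_le_mul_of_nonneg_left (peierls' h1 hA _) (abs_nonneg a))
    (mul_le_mul_of_nonneg_left (peierls' h1 hB _) (abs_nonneg b))

/-- the weighted power mean -/
noncomputable def powerMean (p t : ℝ) (X Y : Matrix (Fin n) (Fin n) ℂ) :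
    Matrix (Fin n) (Fin n) ℂ :=
  cfc (fun x : ℝ => x ^ (1 / p))
    (t • cfc (fun x : ℝ => x ^ p) X + (1 - t) • cfc (fun x : ℝ => x ^ p) Y)

/-- monotonicity of the power mean of exponent `p` for the Schatten metric of exponent `q` -/
def Mono (p : ℝ) (q : ℝ≥0∞) : Prop :=
  ∀ (n : ℕ), 1 ≤ n → ∀ X Y : Matrix (Fin n) (Fin n) ℂ, X.PosDef → Y.PosDef →
    MonotoneOn (fun t : ℝ => schatten q (powerMean p t X Y - Y)) (Set.Icc 0 1)

lemma herm_lin {A B : Matrix (Fin n) (Fin n) ℂ} (hA : A.IsHermitian) (hB : B.IsHermitian)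
    (a b : ℝ) : (a • A + b • B).IsHermitian := by
  unfold Matrix.IsHermitian
  rw [Matrix.conjTranspose_add, Matrix.conjTranspose_smul, Matrix.conjTranspose_smul, hA.eq,
    hB.eq]
  simp

lemma herm_cfc (A : Matrix (Fin n) (Fin n) ℂ) (f : ℝ → ℝ) : (cfc f A).IsHermitian :=
  cfc_predicate f A

lemma qf_sq {A : Matrix (Fin n) (Fin n) ℂ} (hA : A.IsHermitian) (x : EuclideanSpace ℂ (Fin n)) :
    qf (A * A) x = ‖Matrix.toEuclideanLin A x‖ ^ 2 := by
  have h1 : Matrix.toEuclideanLin (A * A) x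
      = Matrix.toEuclideanLin A (Matrix.toEuclideanLin A x) := by
    ext i
    simp [Matrix.toLpLin_apply, Matrix.mulVec_mulVec]
  have h2 := (Matrix.isSymmetric_toEuclideanLin_iff.mpr hA) x (Matrix.toEuclideanLin A x)
  rw [qf, h1, ← h2, inner_self_eq_norm_sq_to_K]
  norm_cast

/-- a Powers-Størmer type inequality in all Schatten norms -/
lemma ando {q : ℝ≥0∞} (h1 : 1 ≤ q) {A B : Matrix (Fin n) (Fin n) ℂ} (hA : A.IsHermitian)
    (hB : B.IsHermitian) (pA : ∀ x, 0 ≤ qf A x) (pB : ∀ x, 0 ≤ qf B x) :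
    schatten q ((A - B) * (A - B)) ≤ schatten q (A * A - B * B) := by
  have hH : (A - B).IsHermitian := hA.sub hB
  set b := hH.eigenvectorBasis with hb
  set h := hH.eigenvalues with hh
  have hE : Eig (A - B) b h := eig_canon hH
  have hE2 : Eig ((A - B) * (A - B)) b (fun i => h i ^ 2) := by
    intro j
    have e : Matrix.toEuclideanLin ((A - B) * (A - B)) (b j)
        = Matrix.toEuclideanLin (A - B) (Matrix.toEuclideanLin (A - B) (b j)) := by
      ext i
      simp only [Matrix.toLpLin_apply, Matrix.mulVec_mulVec]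
    rw [e, hE j, map_smul, hE j, smul_smul]
    push_cast
    rw [pow_two]
  have hHH : ((A - B) * (A - B)).IsHermitian := by
    unfold Matrix.IsHermitian
    rw [Matrix.conjTranspose_mul, hH.eq]
  have hAA : (A * A).IsHermitian := by
    unfold Matrix.IsHermitian; rw [Matrix.conjTranspose_mul, hA.eq]
  have hBB : (B * B).IsHermitian := by
    unfold Matrix.IsHermitian; rw [Matrix.conjTranspose_mul, hB.eq]
  rw [schatten_eig h1 hHH hE2]
  refine (L_mono h1 fun i => ?_).trans (peierls' h1 (hAA.sub hBB) b)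
  have e1 : Matrix.toEuclideanLin A (b i)
      = Matrix.toEuclideanLin B (b i) + (h i : ℂ) • b i := by
    rw [← hE i, map_sub, LinearMap.sub_apply]; abel
  have e2 : qf A (b i) = qf B (b i) + h i := by
    have := qf_eig_self hE i
    rw [qf_sub] at this
    linarith
  have e3 : qf (A * A - B * B) (b i) = h i * (qf A (b i) + qf B (b i)) := by
    rw [qf_sub, qf_sq hA, qf_sq hB, e1, @norm_add_sq ℂ]
    have : RCLike.re (⟪Matrix.toEuclideanLin B (b i), (h i : ℂ) • b i⟫) = h i * qf B (b i) := by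
      have h2 := (Matrix.isSymmetric_toEuclideanLin_iff.mpr hB) (b i) (b i)
      rw [inner_smul_right, h2]
      show (((h i : ℝ) : ℂ) * _).re = _
      rw [Complex.re_ofReal_mul]
      rfl
    rw [this, norm_smul, b.orthonormal.1 i, e2]
    simp
    ring
  rw [e3, abs_mul, abs_of_nonneg (sq_nonneg (h i)), ← sq_abs (h i), pow_two]
  refine mul_le_mul_of_nonneg_left ?_ (abs_nonneg _)
  have p1 := pA (b i)
  have p2 := pB (b i)
  rw [abs_of_nonneg (add_nonneg p1 p2), abs_le]
  constructor <;> linarith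

lemma qf_nonneg_of_eig {A : Matrix (Fin n) (Fin n) ℂ} {b : OB n} {m : Fin n → ℝ}
    (h : Eig A b m) (hm : ∀ i, 0 ≤ m i) (x) : 0 ≤ qf A x := by
  rw [qf_eig h]
  exact Finset.sum_nonneg fun i _ => mul_nonneg (by positivity) (hm i)

/-- **The exponent `1/2` works for all Schatten metrics.** -/
theorem mono_half {q : ℝ≥0∞} (h1 : 1 ≤ q) : Mono (1 / 2) q := by
  haveI : Fact (1 ≤ q) := ⟨h1⟩
  intro n _ X Y hX hY
  set f : ℝ → ℝ := fun x => x ^ (1 / 2 : ℝ) with hf
  set S := cfc f X with hS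
  set B := cfc f Y with hB
  have hSh : S.IsHermitian := herm_cfc X f
  have hBh : B.IsHermitian := herm_cfc Y f
  have pS : ∀ x, 0 ≤ qf S x := qf_nonneg_of_eig (eig_cfc hX.isHermitian f)
    fun i => Real.rpow_nonneg (hX.eigenvalues_pos i).le _
  have pB : ∀ x, 0 ≤ qf B x := qf_nonneg_of_eig (eig_cfc hY.isHermitian f)
    fun i => Real.rpow_nonneg (hY.eigenvalues_pos i).le _
  have hBB : B * B = Y := by
    rw [hB, ← cfc_mul f f Y (by rw [continuousOn_iff_continuous_domRestrict]; fun_prop)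
      (by rw [continuousOn_iff_continuous_domRestrict]; fun_prop)]
    have : Set.EqOn (fun x => f x * f x) id (spectrum ℝ Y) := by
      intro x hx
      rw [hY.isHermitian.spectrum_real_eq_range_eigenvalues] at hx
      obtain ⟨i, rfl⟩ := hx
      have h0 := (hY.eigenvalues_pos i).le
      simp only [hf, id]
      rw [← Real.rpow_add_of_nonneg h0 (by norm_num) (by norm_num)]
      norm_num
    rw [cfc_congr this, cfc_id ℝ Y hY.isHermitian.isSelfAdjoint]
  have hM : ∀ t : ℝ, powerMean (1 / 2) t X Y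
      = (t • S + (1 - t) • B) * (t • S + (1 - t) • B) := by
    intro t
    unfold powerMean
    have : (fun x : ℝ => x ^ (1 / (1 / 2) : ℝ)) = fun x => x ^ 2 := by
      ext x; rw [one_div_one_div, Real.rpow_two]
    rw [this, cfc_pow_id (R := ℝ) _ 2 (herm_lin hSh hBh _ _).isSelfAdjoint, pow_two]
  intro s hs t ht hst
  show schatten q (powerMean (1 / 2) s X Y - Y) ≤ schatten q (powerMean (1 / 2) t X Y - Y)
  rcases eq_or_lt_of_le ht.1 with h0 | h0
  · have : s = t := le_antisymm hst (by rw [← h0]; exact hs.1)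
    rw [this]
  set u := s / t with hu
  have hu0 : 0 ≤ u := div_nonneg hs.1 h0.le
  have hu1 : u ≤ 1 := div_le_one_of_le₀ hst h0.le
  have hst' : s = u * t := by rw [hu]; field_simp
  set A := t • S + (1 - t) • B with hA
  have hAh : A.IsHermitian := herm_lin hSh hBh _ _
  have pA : ∀ x, 0 ≤ qf A x := fun x => by
    rw [hA, qf_add, qf_smul, qf_smul]
    have := pS x
    have := pB x
    have := ht.2
    have : 0 ≤ 1 - t := by linarith
    positivity
  have e0 : s • S + (1 - s) • B = B + u • (A - B) := by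
    rw [hA, hst']
    module
  have e1 : powerMean (1 / 2) s X Y - Y
      = u • (A * A - B * B) + (-(u * (1 - u))) • ((A - B) * (A - B)) := by
    rw [hM, e0]
    nth_rewrite 1 [← hBB]
    simp only [mul_add, add_mul, mul_sub, sub_mul, smul_mul_assoc, mul_smul_comm, smul_sub,
      smul_smul]
    module
  have e2 : powerMean (1 / 2) t X Y - Y = A * A - B * B := by rw [hM, hBB]
  have hZ : (A * A - B * B).IsHermitian := by
    unfold Matrix.IsHermitian
    rw [Matrix.conjTranspose_sub, Matrix.conjTranspose_mul, Matrix.conjTranspose_mul, hAh.eq,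
      hBh.eq]
  have hHH : ((A - B) * (A - B)).IsHermitian := by
    unfold Matrix.IsHermitian
    rw [Matrix.conjTranspose_mul, (hAh.sub hBh).eq]
  rw [e1, e2]
  refine (schatten_lin hZ hHH _ _).trans ?_
  have h3 := ando h1 hAh hBh pA pB
  have h4 : 0 ≤ schatten q (A * A - B * B) := L_nonneg q _
  have h5 : 0 ≤ u * (1 - u) := mul_nonneg hu0 (by linarith)
  rw [abs_of_nonneg hu0, abs_neg, abs_of_nonneg h5]
  nlinarith [mul_le_mul_of_nonneg_left h3 h5, mul_nonneg h4 (sq_nonneg (1 - u))]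

end Pool.Agent.H93M
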