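import Pool.Agent.H93M.A

open Matrix MeasureTheory
open scoped ENNReal ComplexInnerProductSpace ComplexOrder

namespace Pool.Agent.H93M

variable {n : ℕ}

lemma cont_fin (A : Matrix (Fin n) (Fin n) ℂ) (f : ℝ → ℝ) : ContinuousOn f (spectrum ℝ A) := by
  rw [continuousOn_iff_continuous_domRestrict]; fun_prop

lemma powerMean_one {p : ℝ} (hp : p ≠ 0) {X Y : Matrix (Fin n) (Fin n) ℂ} (hX : X.PosDef) :
    powerMean p 1 X Y = X := by
  unfold powerMean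
  rw [sub_self, zero_smul, add_zero, one_smul]
  have hf : Finite ((fun x : ℝ => x ^ p) '' spectrum ℝ X) := inferInstance
  rw [← cfc_comp' (fun x : ℝ => x ^ (1 / p)) (fun x : ℝ => x ^ p) X
    (by rw [continuousOn_iff_continuous_domRestrict]; exact continuous_of_discreteTopology)
    (cont_fin X _) hX.isHermitian.isSelfAdjoint]
  have : Set.EqOn (fun x : ℝ => (x ^ p) ^ (1 / p)) id (spectrum ℝ X) := by
    intro x hx
    rw [hX.isHermitian.spectrum_real_eq_range_eigenvalues] at hx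
    obtain ⟨i, rfl⟩ := hx
    have h0 := (hX.eigenvalues_pos i).le
    simp only [id]
    rw [← Real.rpow_mul h0, mul_one_div_cancel hp, Real.rpow_one]
  rw [cfc_congr this, cfc_id ℝ X hX.isHermitian.isSelfAdjoint]

lemma eig_two {M : Matrix (Fin n) (Fin n) ℂ} (hM : M.IsHermitian) {a b : ℝ}
    (h : M * M = (a + b) • M - (a * b) • (1 : Matrix (Fin n) (Fin n) ℂ)) (i : Fin n) :
    hM.eigenvalues i = a ∨ hM.eigenvalues i = b := by
  have h1 := congrArg (fun A => qf A (hM.eigenvectorBasis i)) h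
  rw [qf_sq hM, eig_canon hM i, qf_sub, qf_smul, qf_smul, qf_one, qf_eig_self (eig_canon hM),
    norm_smul, hM.eigenvectorBasis.orthonormal.1 i] at h1
  have h2 : (hM.eigenvalues i - a) * (hM.eigenvalues i - b) = 0 := by
    have : ‖((hM.eigenvalues i : ℝ) : ℂ)‖ ^ 2 = hM.eigenvalues i ^ 2 := by
      rw [Complex.norm_real, Real.norm_eq_abs, sq_abs]
    rw [mul_one, this] at h1
    nlinarith
  rcases mul_eq_zero.1 h2 with h3 | h3
  · left; linarith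
  · right; linarith

lemma cfc_two {M : Matrix (Fin n) (Fin n) ℂ} (hM : M.IsHermitian) {a b : ℝ} (hab : a ≠ b)
    (h : M * M = (a + b) • M - (a * b) • (1 : Matrix (Fin n) (Fin n) ℂ)) (f : ℝ → ℝ) :
    cfc f M = (f a - (f a - f b) / (a - b) * a) • (1 : Matrix (Fin n) (Fin n) ℂ)
      + ((f a - f b) / (a - b)) • M := by
  have hab' : a - b ≠ 0 := sub_ne_zero.2 hab
  have : Set.EqOn f (fun x => (f a - (f a - f b) / (a - b) * a) + (f a - f b) / (a - b) * x)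
      (spectrum ℝ M) := by
    intro x hx
    rw [hM.spectrum_real_eq_range_eigenvalues] at hx
    obtain ⟨i, rfl⟩ := hx
    simp only
    rcases eig_two hM h i with h1 | h1
    · rw [h1]; ring
    · rw [h1]; field_simp; ring
  rw [cfc_congr this, cfc_const_add _ _ M (cont_fin M _) hM.isSelfAdjoint,
    cfc_const_mul_id _ M hM.isSelfAdjoint, Algebra.algebraMap_eq_smul_one]

/-- functions of `P + δ` -/
lemma cfc_proj {P : Matrix (Fin n) (Fin n) ℂ} (hP : P.IsHermitian) (hPP : P * P = P) (δ : ℝ)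
    (f : ℝ → ℝ) :
    cfc f (P + δ • (1 : Matrix (Fin n) (Fin n) ℂ)) = f δ • (1 - P) + f (1 + δ) • P := by
  have h1 : (1 : Matrix (Fin n) (Fin n) ℂ).IsHermitian := Matrix.isHermitian_one
  have hM : (P + δ • (1 : Matrix (Fin n) (Fin n) ℂ)).IsHermitian := by
    have := herm_lin hP h1 1 δ
    rwa [one_smul] at this
  have hsq : (P + δ • (1 : Matrix (Fin n) (Fin n) ℂ)) * (P + δ • (1 : Matrix (Fin n) (Fin n) ℂ))
      = ((1 + δ) + δ) • (P + δ • (1 : Matrix (Fin n) (Fin n) ℂ))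
        - ((1 + δ) * δ) • (1 : Matrix (Fin n) (Fin n) ℂ) := by
    simp only [mul_add, add_mul, smul_mul_assoc, mul_smul_comm, mul_one, one_mul, hPP]
    module
  rw [cfc_two hM (by linarith) hsq f]
  have e : (1 + δ) - δ = 1 := by ring
  rw [e, div_one]
  module

/-- lower bound of the eigenvalues -/
lemma eig_ge {M : Matrix (Fin n) (Fin n) ℂ} (hM : M.IsHermitian) {m : ℝ}
    (h : ∀ x, m * ‖x‖ ^ 2 ≤ qf M x) (i : Fin n) : m ≤ hM.eigenvalues i := by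
  have := h (hM.eigenvectorBasis i)
  rw [qf_eig_self (eig_canon hM), hM.eigenvectorBasis.orthonormal.1 i] at this
  linarith

lemma eig_le {M : Matrix (Fin n) (Fin n) ℂ} (hM : M.IsHermitian) {m : ℝ}
    (h : ∀ x, qf M x ≤ m * ‖x‖ ^ 2) (i : Fin n) : hM.eigenvalues i ≤ m := by
  have := h (hM.eigenvectorBasis i)
  rw [qf_eig_self (eig_canon hM), hM.eigenvectorBasis.orthonormal.1 i] at this
  linarith

lemma qf_cfc_le {M : Matrix (Fin n) (Fin n) ℂ} (hM : M.IsHermitian) (f : ℝ → ℝ) {η : ℝ}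
    (h : ∀ i, f (hM.eigenvalues i) ≤ η) (x) : qf (cfc f M) x ≤ η * ‖x‖ ^ 2 := by
  rw [qf_eig (eig_cfc hM f), ← hM.eigenvectorBasis.sum_sq_norm_inner_right x, Finset.mul_sum]
  refine Finset.sum_le_sum fun i _ => ?_
  rw [mul_comm η]
  exact mul_le_mul_of_nonneg_left (h i) (by positivity)

lemma le_qf_cfc {M : Matrix (Fin n) (Fin n) ℂ} (hM : M.IsHermitian) (f : ℝ → ℝ) {η : ℝ}
    (h : ∀ i, η ≤ f (hM.eigenvalues i)) (x) : η * ‖x‖ ^ 2 ≤ qf (cfc f M) x := by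
  rw [qf_eig (eig_cfc hM f), ← hM.eigenvectorBasis.sum_sq_norm_inner_right x, Finset.mul_sum]
  refine Finset.sum_le_sum fun i _ => ?_
  rw [mul_comm η]
  exact mul_le_mul_of_nonneg_left (h i) (by positivity)

/-! ### two by two matrices -/

/-- real symmetric two by two matrices -/
def mk (a b d : ℝ) : Matrix (Fin 2) (Fin 2) ℂ := !![(a : ℂ), (b : ℂ); (b : ℂ), (d : ℂ)]

lemma mk_herm (a b d : ℝ) : (mk a b d).IsHermitian := by
  unfold Matrix.IsHermitian mk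
  ext i j
  fin_cases i <;> fin_cases j <;> simp [Matrix.conjTranspose_apply]

lemma norm_two (x : EuclideanSpace ℂ (Fin 2)) : ‖x‖ ^ 2 = ‖x 0‖ ^ 2 + ‖x 1‖ ^ 2 := by
  rw [EuclideanSpace.norm_sq_eq, Fin.sum_univ_two]

/-- the mixed term -/
noncomputable def mx (x : EuclideanSpace ℂ (Fin 2)) : ℝ := (x 0).re * (x 1).re + (x 0).im * (x 1).im

lemma qf_mk (a b d : ℝ) (x : EuclideanSpace ℂ (Fin 2)) :
    qf (mk a b d) x = a * ‖x 0‖ ^ 2 + 2 * b * mx x + d * ‖x 1‖ ^ 2 := by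
  have h : ⟪x, Matrix.toEuclideanLin (mk a b d) x⟫
      = (starRingEnd ℂ) (x 0) * (a * x 0 + b * x 1) + (starRingEnd ℂ) (x 1) * (b * x 0 + d * x 1) := by
    rw [PiLp.inner_apply, Fin.sum_univ_two]
    simp [Matrix.toLpLin_apply, mk, Matrix.mulVec, dotProduct, Fin.sum_univ_two]
    ring
  rw [qf, h, ← Complex.normSq_eq_norm_sq, ← Complex.normSq_eq_norm_sq]
  simp only [Complex.normSq_apply, mx, Complex.add_re, Complex.mul_re, Complex.mul_im,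
    Complex.conj_re, Complex.conj_im, Complex.ofReal_re, Complex.ofReal_im, Complex.add_im]
  ring

lemma sq_form (α β : ℝ) (x : EuclideanSpace ℂ (Fin 2)) :
    0 ≤ α ^ 2 * ‖x 0‖ ^ 2 + 2 * (α * β) * mx x + β ^ 2 * ‖x 1‖ ^ 2 := by
  rw [← Complex.normSq_eq_norm_sq, ← Complex.normSq_eq_norm_sq]
  simp only [Complex.normSq_apply, mx]
  nlinarith [sq_nonneg (α * (x 0).re + β * (x 1).re), sq_nonneg (α * (x 0).im + β * (x 1).im)]

/-- the projection on `(c, s)` -/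
def Pr (c s : ℝ) : Matrix (Fin 2) (Fin 2) ℂ := mk (c ^ 2) (c * s) (s ^ 2)

lemma Pr_sq {c s : ℝ} (h : c ^ 2 + s ^ 2 = 1) : Pr c s * Pr c s = Pr c s := by
  have h' : (c : ℂ) ^ 2 + (s : ℂ) ^ 2 = 1 := by exact_mod_cast h
  unfold Pr mk
  ext i j
  fin_cases i <;> fin_cases j <;> simp [Matrix.mul_apply, Fin.sum_univ_two]
  · linear_combination (c : ℂ) ^ 2 * h'
  · linear_combination (c : ℂ) * s * h'
  · linear_combination (c : ℂ) * s * h'
  · linear_combination (s : ℂ) ^ 2 * h'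

lemma Pr_herm (c s : ℝ) : (Pr c s).IsHermitian := mk_herm _ _ _

lemma qf_Pr (c s : ℝ) (x : EuclideanSpace ℂ (Fin 2)) :
    qf (Pr c s) x = c ^ 2 * ‖x 0‖ ^ 2 + 2 * (c * s) * mx x + s ^ 2 * ‖x 1‖ ^ 2 := qf_mk _ _ _ x

/-- two projections at an angle -/
lemma qf_PQ_ge {c s : ℝ} (h : c ^ 2 + s ^ 2 = 1) (hc0 : 0 ≤ c) (hc1 : c < 1)
    (x : EuclideanSpace ℂ (Fin 2)) : (1 - c) * ‖x‖ ^ 2 ≤ qf (Pr c s) x + qf (Pr 1 0) x := by
  rw [qf_Pr, qf_Pr, norm_two]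
  have h1 := sq_form s (1 - c) x
  have h2 : 0 ≤ (1 - c) * ((1 + c) * ‖x 0‖ ^ 2 + 2 * s * mx x + (1 - c) * ‖x 1‖ ^ 2) := by
    nlinarith [h1, mul_nonneg (sub_nonneg.2 hc1.le) (sq_nonneg ‖x 0‖)]
  have h3 := nonneg_of_mul_nonneg_right h2 (by linarith)
  nlinarith [mul_nonneg hc0 h3, h]

lemma qf_PQ_le {c s : ℝ} (h : c ^ 2 + s ^ 2 = 1) (hc0 : 0 ≤ c) (hc1 : c < 1)
    (x : EuclideanSpace ℂ (Fin 2)) : qf (Pr c s) x + qf (Pr 1 0) x ≤ (1 + c) * ‖x‖ ^ 2 := by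
  rw [qf_Pr, qf_Pr, norm_two]
  have h1 := sq_form (1 - c) (-s) x
  have h2 : 0 ≤ (1 - c) * ((1 - c) * ‖x 0‖ ^ 2 - 2 * s * mx x + (1 + c) * ‖x 1‖ ^ 2) := by
    nlinarith [h1, mul_nonneg (sub_nonneg.2 hc1.le) (sq_nonneg ‖x 1‖)]
  have h3 := nonneg_of_mul_nonneg_right h2 (by linarith)
  nlinarith [mul_nonneg hc0 h3, h]

lemma posDef_of_qf {M : Matrix (Fin n) (Fin n) ℂ} (hM : M.IsHermitian) {m : ℝ} (hm : 0 < m)
    (h : ∀ x, m * ‖x‖ ^ 2 ≤ qf M x) : M.PosDef := by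
  rw [hM.posDef_iff_eigenvalues_pos]
  exact fun i => lt_of_lt_of_le hm (eig_ge hM h i)

lemma qf_Pr_nonneg (c s : ℝ) (x : EuclideanSpace ℂ (Fin 2)) : 0 ≤ qf (Pr c s) x := by
  rw [qf_Pr]; exact sq_form c s x

lemma qf_Pr_le {c s : ℝ} (h : c ^ 2 + s ^ 2 = 1) (x : EuclideanSpace ℂ (Fin 2)) :
    qf (Pr c s) x ≤ ‖x‖ ^ 2 := by
  rw [qf_Pr, norm_two]
  nlinarith [sq_form s (-c) x]

/-- `P + δ` -/
noncomputable def Pd (c s δ : ℝ) : Matrix (Fin 2) (Fin 2) ℂ := Pr c s + δ • (1 : Matrix (Fin 2) (Fin 2) ℂ)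

lemma Pd_herm (c s δ : ℝ) : (Pd c s δ).IsHermitian := by
  have := herm_lin (Pr_herm c s) (Matrix.isHermitian_one (n := Fin 2) (α := ℂ)) 1 δ
  rwa [one_smul] at this

lemma Pd_pos {c s δ : ℝ} (hδ : 0 < δ) : (Pd c s δ).PosDef := by
  refine posDef_of_qf (Pd_herm c s δ) hδ fun x => ?_
  unfold Pd
  rw [qf_add, qf_smul, qf_one]
  linarith [qf_Pr_nonneg c s x]

/-- the distance of the end points -/
lemma dist_le {q : ℝ≥0∞} (h1 : 1 ≤ q) {c s : ℝ} (h : c ^ 2 + s ^ 2 = 1) (hs : 0 ≤ s) (δ : ℝ) :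
    schatten q (Pd c s δ - Pd 1 0 δ) ≤ 2 * s := by
  haveI : Fact (1 ≤ q) := ⟨h1⟩
  have e : Pd c s δ - Pd 1 0 δ = mk (-s ^ 2) (c * s) (s ^ 2) := by
    have h' : (c : ℂ) ^ 2 + (s : ℂ) ^ 2 = 1 := by exact_mod_cast h
    unfold Pd Pr mk
    ext i j
    fin_cases i <;> fin_cases j <;> simp
    linear_combination h'
  rw [e]
  have hM := mk_herm (-s ^ 2) (c * s) (s ^ 2)
  have hsq : mk (-s ^ 2) (c * s) (s ^ 2) * mk (-s ^ 2) (c * s) (s ^ 2)
      = (s + -s) • mk (-s ^ 2) (c * s) (s ^ 2)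
        - (s * -s) • (1 : Matrix (Fin 2) (Fin 2) ℂ) := by
    have h' : (c : ℂ) ^ 2 + (s : ℂ) ^ 2 = 1 := by exact_mod_cast h
    unfold mk
    ext i j
    fin_cases i <;> fin_cases j <;> simp [Matrix.mul_apply, Fin.sum_univ_two]
    · linear_combination (s : ℂ) ^ 2 * h'
    · ring
    · ring
    · linear_combination (s : ℂ) ^ 2 * h'
  rw [schatten_canon h1 hM]
  refine (L_le_sum q _).trans ?_
  rw [Fin.sum_univ_two]
  have h2 : ∀ i, |hM.eigenvalues i| = s := by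
    intro i
    rcases eig_two hM hsq i with h3 | h3 <;> rw [h3]
    · exact abs_of_nonneg hs
    · rw [abs_neg, abs_of_nonneg hs]
  rw [h2, h2]
  linarith

/-- lower bound for the distance by a diagonal entry -/
lemma le_schatten {q : ℝ≥0∞} (h1 : 1 ≤ q) {A : Matrix (Fin n) (Fin n) ℂ} (hA : A.IsHermitian)
    (i : Fin n) : |qf A (EuclideanSpace.single i (1 : ℂ))| ≤ schatten q A := by
  haveI : Fact (1 ≤ q) := ⟨h1⟩
  have h2 := peierls' h1 hA (EuclideanSpace.basisFun (Fin n) ℂ)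
  have h3 := le_L q (fun i => qf A ((EuclideanSpace.basisFun (Fin n) ℂ) i)) i
  simp only [EuclideanSpace.basisFun_apply] at h2 h3
  exact h3.trans h2

/-- the mean of the powers -/
noncomputable def Mn (p c s δ : ℝ) : Matrix (Fin 2) (Fin 2) ℂ :=
  (1 / 2 : ℝ) • cfc (fun x : ℝ => x ^ p) (Pd c s δ)
    + (1 - 1 / 2 : ℝ) • cfc (fun x : ℝ => x ^ p) (Pd 1 0 δ)

lemma Mn_herm (p c s δ : ℝ) : (Mn p c s δ).IsHermitian := herm_lin (herm_cfc _ _) (herm_cfc _ _) _ _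

lemma qf_Mn {p c s δ : ℝ} (h : c ^ 2 + s ^ 2 = 1) (x : EuclideanSpace ℂ (Fin 2)) :
    qf (Mn p c s δ) x = (1 / 2) * (δ ^ p * (2 * ‖x‖ ^ 2 - (qf (Pr c s) x + qf (Pr 1 0) x))
      + (1 + δ) ^ p * (qf (Pr c s) x + qf (Pr 1 0) x)) := by
  unfold Mn
  rw [qf_add, qf_smul, qf_smul]
  unfold Pd
  rw [cfc_proj (Pr_herm c s) (Pr_sq h), cfc_proj (Pr_herm 1 0) (Pr_sq (by norm_num)), qf_add,
    qf_add, qf_smul, qf_smul, qf_smul, qf_smul, qf_sub, qf_sub, qf_one]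
  ring

lemma not_mono_aux {p c s δ : ℝ} {q : ℝ≥0∞} (hp : p ≠ 0) (h1 : 1 ≤ q) (h : c ^ 2 + s ^ 2 = 1)
    (hs : 0 ≤ s) (hδ : 0 < δ)
    (hk : 2 * s < schatten q (cfc (fun x : ℝ => x ^ (1 / p)) (Mn p c s δ) - Pd 1 0 δ)) :
    ¬ Mono p q := by
  intro hm
  have h2 := hm 2 (by norm_num) (Pd c s δ) (Pd 1 0 δ) (Pd_pos hδ) (Pd_pos hδ)
    (show (1 / 2 : ℝ) ∈ Set.Icc (0 : ℝ) 1 by constructor <;> norm_num)
    (show (1 : ℝ) ∈ Set.Icc (0 : ℝ) 1 by constructor <;> norm_num) (by norm_num)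
  have h3 : schatten q (powerMean p 1 (Pd c s δ) (Pd 1 0 δ) - Pd 1 0 δ) ≤ 2 * s := by
    rw [powerMean_one hp (Pd_pos hδ)]
    exact dist_le h1 h hs δ
  have h4 : schatten q (cfc (fun x : ℝ => x ^ (1 / p)) (Mn p c s δ) - Pd 1 0 δ) ≤ 2 * s :=
    le_trans h2 h3
  linarith

lemma qf_Pd_zero (δ : ℝ) : qf (Pd 1 0 δ) (EuclideanSpace.single 0 (1 : ℂ)) = 1 + δ := by
  unfold Pd
  rw [qf_add, qf_smul, qf_one, qf_Pr]
  simp [mx]

lemma qf_Pd_one (δ : ℝ) : qf (Pd 1 0 δ) (EuclideanSpace.single 1 (1 : ℂ)) = δ := by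
  unfold Pd
  rw [qf_add, qf_smul, qf_one, qf_Pr]
  simp [mx]

/-- small means -/
lemma not_mono_small {p c s δ η : ℝ} {q : ℝ≥0∞} (hp : p ≠ 0) (h1 : 1 ≤ q)
    (h : c ^ 2 + s ^ 2 = 1) (hs : 0 ≤ s) (hδ : 0 < δ)
    (hη : ∀ i, (Mn_herm p c s δ).eigenvalues i ^ (1 / p) ≤ η) (hk : 2 * s < 1 + δ - η) :
    ¬ Mono p q := by
  refine not_mono_aux hp h1 h hs hδ ?_
  have h2 := le_schatten h1 ((herm_cfc (Mn p c s δ) (fun x : ℝ => x ^ (1 / p))).sub
    (Pd_herm 1 0 δ)) 0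
  have h3 := qf_cfc_le (Mn_herm p c s δ) (fun x : ℝ => x ^ (1 / p)) hη
    (EuclideanSpace.single 0 (1 : ℂ))
  rw [qf_sub, qf_Pd_zero] at h2
  have h4 : ‖(EuclideanSpace.single 0 (1 : ℂ) : EuclideanSpace ℂ (Fin 2))‖ = 1 := by simp
  rw [h4] at h3
  have h5 := neg_le_abs (qf (cfc (fun x : ℝ => x ^ (1 / p)) (Mn p c s δ))
    (EuclideanSpace.single 0 (1 : ℂ)) - (1 + δ))
  linarith

/-- **negative exponents** -/
theorem not_mono_neg {p : ℝ} (hp : p < 0) {q : ℝ≥0∞} (h1 : 1 ≤ q) : ¬ Mono p q := by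
  have h : (12 / 13 : ℝ) ^ 2 + (5 / 13) ^ 2 = 1 := by norm_num
  set δ : ℝ := (26 : ℝ) ^ (1 / p) / 13 with hδ
  have h26 : (0 : ℝ) < (26 : ℝ) ^ (1 / p) := by positivity
  have hδ0 : 0 < δ := by positivity
  refine not_mono_small (δ := δ) (η := 1 / 13) hp.ne h1 h (by norm_num) hδ0 (fun i => ?_)
    (by norm_num; linarith)
  have h2 : δ ^ p / 26 ≤ (Mn_herm p (12 / 13) (5 / 13) δ).eigenvalues i := by
    refine eig_ge _ (fun x => ?_) i
    rw [qf_Mn h]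
    have a1 := qf_PQ_le h (by norm_num) (by norm_num) x
    have a2 : 0 ≤ qf (Pr (12 / 13) (5 / 13)) x + qf (Pr 1 0) x :=
      add_nonneg (qf_Pr_nonneg _ _ x) (qf_Pr_nonneg _ _ x)
    have a3 : 0 ≤ δ ^ p := by positivity
    have a4 : 0 ≤ (1 + δ) ^ p := by positivity
    nlinarith [mul_nonneg a4 a2, mul_nonneg a3 (sub_nonneg.2 a1)]
  have h3 : 0 < δ ^ p / 26 := by positivity
  have h4 : (Mn_herm p (12 / 13) (5 / 13) δ).eigenvalues i ^ (1 / p) ≤ (δ ^ p / 26) ^ (1 / p) :=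
    Real.rpow_le_rpow_of_nonpos h3 h2 (by
      rw [one_div]; exact (inv_lt_zero.2 hp).le)
  refine h4.trans (le_of_eq ?_)
  rw [Real.div_rpow (by positivity) (by norm_num), ← Real.rpow_mul hδ0.le,
    mul_one_div_cancel hp.ne, Real.rpow_one, hδ]
  field_simp


/-- **small positive exponents** -/
theorem not_mono_small_pos {p : ℝ} (hp : 0 < p) (hp1 : p ≤ 1 / 40) {q : ℝ≥0∞} (h1 : 1 ≤ q) :
    ¬ Mono p q := by
  have h : (12 / 13 : ℝ) ^ 2 + (5 / 13) ^ 2 = 1 := by norm_num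
  have hlim : Filter.Tendsto (fun δ : ℝ => (δ ^ p + 25 / 26 * (1 + δ) ^ p) ^ (1 / p))
      (nhdsWithin 0 (Set.Ioi 0)) (nhds ((25 / 26 : ℝ) ^ (1 / p))) := by
    have hc : ContinuousAt (fun δ : ℝ => (δ ^ p + 25 / 26 * (1 + δ) ^ p) ^ (1 / p)) 0 := by
      have c1 : ContinuousAt (fun δ : ℝ => δ ^ p) 0 :=
        (Real.continuous_rpow_const hp.le).continuousAt
      have c2 : ContinuousAt (fun δ : ℝ => (1 + δ) ^ p) 0 :=
        ContinuousAt.rpow_const (by fun_prop) (Or.inr hp.le)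
      exact ContinuousAt.rpow_const (c1.add (continuousAt_const.mul c2))
        (Or.inr (by positivity))
    have := hc.tendsto.mono_left (nhdsWithin_le_nhds (s := Set.Ioi (0 : ℝ)))
    simpa [Real.zero_rpow hp.ne'] using this
  have hval : (25 / 26 : ℝ) ^ (1 / p) < 3 / 13 := by
    have h40 : (40 : ℝ) ≤ 1 / p := by
      rw [le_div_iff₀ hp]; linarith
    have h2 : (25 / 26 : ℝ) ^ (1 / p) ≤ (25 / 26 : ℝ) ^ (40 : ℝ) :=
      Real.rpow_le_rpow_of_exponent_ge (by norm_num) (by norm_num) h40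
    have h3 : (25 / 26 : ℝ) ^ (40 : ℝ) = (25 / 26 : ℝ) ^ (40 : ℕ) := by
      rw [← Real.rpow_natCast]; norm_num
    rw [h3] at h2
    refine h2.trans_lt (by norm_num)
  have hev := (hlim.eventually (gt_mem_nhds hval)).and self_mem_nhdsWithin
  obtain ⟨δ, hδ1, hδ0⟩ := hev.exists
  have hδ0' : 0 < δ := hδ0
  refine not_mono_small (δ := δ) (η := (δ ^ p + 25 / 26 * (1 + δ) ^ p) ^ (1 / p)) hp.ne' h1 h
    (by norm_num) hδ0' (fun i => ?_) (by
      have : 2 * (5 / 13 : ℝ) = 10 / 13 := by norm_num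
      linarith)
  have hpos := (Mn_herm p (12 / 13) (5 / 13) δ)
  have a3 : 0 ≤ δ ^ p := by positivity
  have a4 : 0 ≤ (1 + δ) ^ p := by positivity
  have h0 : 0 ≤ (Mn_herm p (12 / 13) (5 / 13) δ).eigenvalues i := by
    refine eig_ge _ (fun x => ?_) i
    rw [qf_Mn h]
    have b1 := qf_Pr_le h x
    have b2 := qf_Pr_le (show (1 : ℝ) ^ 2 + 0 ^ 2 = 1 by norm_num) x
    have a2 : 0 ≤ qf (Pr (12 / 13) (5 / 13)) x + qf (Pr 1 0) x :=
      add_nonneg (qf_Pr_nonneg _ _ x) (qf_Pr_nonneg _ _ x)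
    have b3 : 0 ≤ 2 * ‖x‖ ^ 2 - (qf (Pr (12 / 13) (5 / 13)) x + qf (Pr 1 0) x) := by linarith
    nlinarith [mul_nonneg a4 a2, mul_nonneg a3 b3]
  have h2 : (Mn_herm p (12 / 13) (5 / 13) δ).eigenvalues i ≤ δ ^ p + 25 / 26 * (1 + δ) ^ p := by
    refine eig_le _ (fun x => ?_) i
    rw [qf_Mn h]
    have a1 := qf_PQ_le h (by norm_num) (by norm_num) x
    have a2 : 0 ≤ qf (Pr (12 / 13) (5 / 13)) x + qf (Pr 1 0) x :=
      add_nonneg (qf_Pr_nonneg _ _ x) (qf_Pr_nonneg _ _ x)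
    nlinarith [mul_nonneg a3 a2, mul_nonneg a4 (sub_nonneg.2 a1)]
  exact Real.rpow_le_rpow h0 h2 (by positivity)

/-- **large exponents** -/
theorem not_mono_large {p : ℝ} (hp : 2 < p) {q : ℝ≥0∞} (h1 : 1 ≤ q) : ¬ Mono p q := by
  -- `z` with `(z² / 2) ^ (1 / p) > 5 z`
  have hp0 : 0 < p := by linarith
  have hlim : Filter.Tendsto (fun z : ℝ => z ^ (1 - 2 / p)) (nhdsWithin 0 (Set.Ioi 0))
      (nhds 0) := by
    have he : 0 < 1 - 2 / p := by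
      rw [sub_pos, div_lt_one hp0]; exact hp
    have hc : ContinuousAt (fun z : ℝ => z ^ (1 - 2 / p)) 0 :=
      (Real.continuous_rpow_const he.le).continuousAt
    have := hc.tendsto.mono_left (nhdsWithin_le_nhds (s := Set.Ioi (0 : ℝ)))
    simpa [Real.zero_rpow he.ne'] using this
  have hev := (hlim.eventually (gt_mem_nhds (show (0 : ℝ) < 1 / 10 by norm_num))).and
    (Ioo_mem_nhdsGT (show (0 : ℝ) < 1 / 2 by norm_num))
  obtain ⟨z, hz1, hz0, hz2⟩ := hev.exists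
  set c : ℝ := (1 - z ^ 2) / (1 + z ^ 2) with hc
  set s : ℝ := 2 * z / (1 + z ^ 2) with hs
  have hzz : 0 < 1 + z ^ 2 := by positivity
  have h : c ^ 2 + s ^ 2 = 1 := by rw [hc, hs]; field_simp; ring
  have hc0 : 0 ≤ c := by rw [hc]; apply div_nonneg _ hzz.le; nlinarith
  have hc1 : c < 1 := by rw [hc, div_lt_one hzz]; nlinarith
  have hs0 : 0 ≤ s := by rw [hs]; positivity
  have hs1 : s ≤ 2 * z := by
    rw [hs, div_le_iff₀ hzz]; nlinarith [mul_pos hz0 (sq_pos_of_pos hz0)]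
  have hcz : z ^ 2 / 2 ≤ (1 - c) / 2 := by
    have : 1 - c = 2 * z ^ 2 / (1 + z ^ 2) := by rw [hc]; field_simp; ring
    rw [this]
    have : z ^ 2 ≤ 2 * z ^ 2 / (1 + z ^ 2) := by
      have h1' : z ^ 2 ≤ 1 := by nlinarith
      rw [le_div_iff₀ hzz]; nlinarith [mul_nonneg (sq_nonneg z) (sub_nonneg.2 h1')]
    linarith
  refine not_mono_aux (c := c) (s := s) (δ := z) hp0.ne' h1 h hs0 hz0 ?_
  have h2 := le_schatten h1 ((herm_cfc (Mn p c s z) (fun x : ℝ => x ^ (1 / p))).sub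
    (Pd_herm 1 0 z)) 1
  have hη : ∀ i, (z ^ 2 / 2) ^ (1 / p) ≤ (Mn_herm p c s z).eigenvalues i ^ (1 / p) := by
    intro i
    refine Real.rpow_le_rpow (by positivity) ?_ (by positivity)
    refine eig_ge _ (fun x => ?_) i
    rw [qf_Mn h]
    have a1 := qf_PQ_ge h hc0 hc1 x
    have b1 := qf_Pr_le h x
    have b2 := qf_Pr_le (show (1 : ℝ) ^ 2 + 0 ^ 2 = 1 by norm_num) x
    have b3 : 0 ≤ 2 * ‖x‖ ^ 2 - (qf (Pr c s) x + qf (Pr 1 0) x) := by linarith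
    have a3 : 0 ≤ z ^ p := by positivity
    have a4 : 1 ≤ (1 + z) ^ p := Real.one_le_rpow (by linarith) hp0.le
    have a5 : 0 ≤ qf (Pr c s) x + qf (Pr 1 0) x :=
      add_nonneg (qf_Pr_nonneg _ _ x) (qf_Pr_nonneg _ _ x)
    have a6 : z ^ 2 / 2 * ‖x‖ ^ 2 ≤ (1 - c) / 2 * ‖x‖ ^ 2 :=
      mul_le_mul_of_nonneg_right hcz (by positivity)
    nlinarith [mul_nonneg a3 b3, mul_le_mul_of_nonneg_right a4 a5]
  have h3 := le_qf_cfc (Mn_herm p c s z) (fun x : ℝ => x ^ (1 / p)) hη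
    (EuclideanSpace.single 1 (1 : ℂ))
  rw [qf_sub, qf_Pd_one] at h2
  have h4 : ‖(EuclideanSpace.single 1 (1 : ℂ) : EuclideanSpace ℂ (Fin 2))‖ = 1 := by simp
  rw [h4] at h3
  have h5 := le_abs_self (qf (cfc (fun x : ℝ => x ^ (1 / p)) (Mn p c s z))
    (EuclideanSpace.single 1 (1 : ℂ)) - z)
  have h6 : 5 * z < (z ^ 2 / 2) ^ (1 / p) := by
    have e1 : (z ^ 2 / 2 : ℝ) ^ (1 / p) = z ^ (2 / p) * (1 / 2 : ℝ) ^ (1 / p) := by
      rw [div_eq_mul_one_div, Real.mul_rpow (by positivity) (by norm_num), ← Real.rpow_natCast,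
        ← Real.rpow_mul hz0.le]
      congr 2
      push_cast
      ring
    have e2 : (1 / 2 : ℝ) ≤ (1 / 2 : ℝ) ^ (1 / p) := by
      have := Real.rpow_le_rpow_of_exponent_ge (show (0 : ℝ) < 1 / 2 by norm_num)
        (by norm_num) (show (1 / p : ℝ) ≤ 1 by rw [div_le_one hp0]; linarith)
      rwa [Real.rpow_one] at this
    have e3 : z = z ^ (1 - 2 / p) * z ^ (2 / p) := by
      rw [← Real.rpow_add hz0]
      have : 1 - 2 / p + 2 / p = 1 := by ring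
      rw [this, Real.rpow_one]
    have e4 : 0 < z ^ (2 / p) := by positivity
    rw [e1]
    have e5 : 5 * z < z ^ (2 / p) * (1 / 2) := by
      nlinarith
    exact e5.trans_le (mul_le_mul_of_nonneg_left e2 e4.le)
  linarith

end Pool.Agent.H93M
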