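import Pool.Agent.H93M.C

open Matrix MeasureTheory Filter Topology
open scoped ENNReal ComplexInnerProductSpace ComplexOrder

namespace Pool.Agent.H93M

lemma mk_add (a b d a' b' d' : ℝ) : mk a b d + mk a' b' d' = mk (a + a') (b + b') (d + d') := by
  unfold mk
  ext i j
  fin_cases i <;> fin_cases j <;> simp

lemma mk_sub (a b d a' b' d' : ℝ) : mk a b d - mk a' b' d' = mk (a - a') (b - b') (d - d') := by
  unfold mk
  ext i j
  fin_cases i <;> fin_cases j <;> simp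

lemma smul_mk (c a b d : ℝ) : c • mk a b d = mk (c * a) (c * b) (c * d) := by
  unfold mk
  ext i j
  fin_cases i <;> fin_cases j <;> simp

lemma one_mk : (1 : Matrix (Fin 2) (Fin 2) ℂ) = mk 1 0 1 := by
  unfold mk
  ext i j
  fin_cases i <;> fin_cases j <;> simp

lemma mk_mul_mk {a b d l1 l2 : ℝ} (h1 : l1 + l2 = a + d) (h2 : l1 * l2 = a * d - b ^ 2) :
    mk a b d * mk a b d = (l1 + l2) • mk a b d - (l1 * l2) • (1 : Matrix (Fin 2) (Fin 2) ℂ) := by
  rw [h1, h2]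
  unfold mk
  ext i j
  fin_cases i <;> fin_cases j <;> simp [Matrix.mul_apply, Fin.sum_univ_two] <;> ring

lemma cfc_mk {a b d l1 l2 : ℝ} (h1 : l1 + l2 = a + d) (h2 : l1 * l2 = a * d - b ^ 2)
    (hne : l1 ≠ l2) (f : ℝ → ℝ) :
    cfc f (mk a b d) = mk (f l1 - (f l1 - f l2) / (l1 - l2) * l1 + (f l1 - f l2) / (l1 - l2) * a)
      ((f l1 - f l2) / (l1 - l2) * b)
      (f l1 - (f l1 - f l2) / (l1 - l2) * l1 + (f l1 - f l2) / (l1 - l2) * d) := by
  rw [cfc_two (mk_herm a b d) hne (mk_mul_mk h1 h2) f, smul_mk, one_mk, smul_mk, mk_add]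
  congr 1 <;> ring

/-- the scalar asymptotics -/
lemma asym {p : ℝ} (hp : 1 < p) {K w11 w12 w22 : ℝ} (hK : 0 < K) (hw : 0 < w22) :
    ∃ e11 e12 e22 : ℝ → ℝ,
      (∀ᶠ τ in 𝓝[>] (0 : ℝ), cfc (fun x : ℝ => x ^ (1 / p))
        (mk ((1 - τ) * K ^ p + τ * w11) (τ * w12) ((1 - τ) * τ ^ p + τ * w22))
          = mk (K + e11 τ) (e12 τ) (e22 τ)) ∧
      Tendsto (fun τ => e11 τ / τ ^ (1 / p)) (𝓝[>] 0) (𝓝 0) ∧
      Tendsto (fun τ => e12 τ / τ ^ (1 / p)) (𝓝[>] 0) (𝓝 0) ∧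
      Tendsto (fun τ => e22 τ / τ ^ (1 / p)) (𝓝[>] 0) (𝓝 (w22 ^ (1 / p))) := by
  have hp0 : 0 < p := by linarith
  set k : ℝ := K ^ p with hk
  have hk0 : 0 < k := by positivity
  set n11 : ℝ → ℝ := fun τ => (1 - τ) * k + τ * w11 with hn11
  set n22 : ℝ → ℝ := fun τ => (1 - τ) * τ ^ p + τ * w22 with hn22
  set Δ : ℝ → ℝ := fun τ => (n11 τ - n22 τ) ^ 2 + 4 * (τ * w12) ^ 2 with hΔ
  set l1 : ℝ → ℝ := fun τ => (n11 τ + n22 τ + √(Δ τ)) / 2 with hl1
  set l2 : ℝ → ℝ := fun τ => (n11 τ + n22 τ - √(Δ τ)) / 2 with hl2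
  have hmono : 𝓝[>] (0 : ℝ) ≤ 𝓝 0 := nhdsWithin_le_nhds
  have hpos : ∀ᶠ τ in 𝓝[>] (0 : ℝ), 0 < τ := self_mem_nhdsWithin
  have cp : ContinuousAt (fun τ : ℝ => τ ^ p) 0 := (Real.continuous_rpow_const hp0.le).continuousAt
  have c11 : ContinuousAt n11 0 := by rw [hn11]; fun_prop
  have c22 : ContinuousAt n22 0 := by
    rw [hn22]
    exact ((continuousAt_const.sub continuousAt_id).mul cp).add
      (continuousAt_id.mul continuousAt_const)
  have cΔ : ContinuousAt (fun τ => √(Δ τ)) 0 := by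
    refine Real.continuous_sqrt.continuousAt.comp ?_
    rw [hΔ]
    exact ((c11.sub c22).pow 2).add (by fun_prop)
  have v11 : n11 0 = k := by simp [hn11]
  have v22 : n22 0 = 0 := by simp [hn22, Real.zero_rpow hp0.ne']
  have vΔ : √(Δ 0) = k := by
    simp only [hΔ, v11, v22]
    rw [show (k - 0) ^ 2 + 4 * (0 * w12) ^ 2 = k ^ 2 by ring, Real.sqrt_sq hk0.le]
  have t11 : Tendsto n11 (𝓝[>] 0) (𝓝 k) := by
    have := c11.tendsto.mono_left hmono; rwa [v11] at this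
  have t22 : Tendsto n22 (𝓝[>] 0) (𝓝 0) := by
    have := c22.tendsto.mono_left hmono; rwa [v22] at this
  have tΔ : Tendsto (fun τ => √(Δ τ)) (𝓝[>] 0) (𝓝 k) := by
    have := cΔ.tendsto.mono_left hmono; rwa [vΔ] at this
  have tl1 : Tendsto l1 (𝓝[>] 0) (𝓝 k) := by
    have := ((t11.add t22).add tΔ).div_const 2
    simpa [hl1] using this
  have tl2 : Tendsto l2 (𝓝[>] 0) (𝓝 0) := by
    have := ((t11.add t22).sub tΔ).div_const 2
    simpa [hl2] using this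
  have tτ : Tendsto (fun τ : ℝ => τ) (𝓝[>] 0) (𝓝 0) := hmono
  have hΔ0 : ∀ τ, 0 ≤ Δ τ := fun τ => by simp only [hΔ]; positivity
  have hsum : ∀ τ, l1 τ + l2 τ = n11 τ + n22 τ := fun τ => by simp only [hl1, hl2]; ring
  have hprod : ∀ τ, l1 τ * l2 τ = n11 τ * n22 τ - (τ * w12) ^ 2 := fun τ => by
    have := Real.sq_sqrt (hΔ0 τ)
    have e : l1 τ * l2 τ = ((n11 τ + n22 τ) ^ 2 - (√(Δ τ)) ^ 2) / 4 := by
      simp only [hl1, hl2]; ring
    rw [e, this]; simp only [hΔ]; ring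
  have hdiff : ∀ τ, l1 τ - l2 τ = √(Δ τ) := fun τ => by simp only [hl1, hl2]; ring
  have el1 : ∀ᶠ τ in 𝓝[>] (0 : ℝ), 0 < l1 τ := tl1.eventually (lt_mem_nhds hk0)
  have eΔ : ∀ᶠ τ in 𝓝[>] (0 : ℝ), 0 < √(Δ τ) := tΔ.eventually (lt_mem_nhds hk0)
  -- quotients by `τ`
  have q22 : Tendsto (fun τ => n22 τ / τ) (𝓝[>] 0) (𝓝 w22) := by
    have h1 : Tendsto (fun τ : ℝ => (1 - τ) * τ ^ (p - 1) + w22) (𝓝[>] 0)
        (𝓝 ((1 - 0) * 0 + w22)) := by
      have c : ContinuousAt (fun τ : ℝ => τ ^ (p - 1)) 0 :=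
        (Real.continuous_rpow_const (by linarith)).continuousAt
      have := c.tendsto.mono_left hmono
      rw [Real.zero_rpow (by linarith)] at this
      exact ((tendsto_const_nhds.sub tτ).mul this).add_const _
    rw [show (1 - 0) * 0 + w22 = w22 by ring] at h1
    refine h1.congr' ?_
    filter_upwards [hpos] with τ hτ
    simp only [hn22]
    rw [Real.rpow_sub_one hτ.ne']
    field_simp
  have q2 : Tendsto (fun τ => l2 τ / τ) (𝓝[>] 0) (𝓝 w22) := by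
    have h1 : Tendsto (fun τ : ℝ => (n11 τ * (n22 τ / τ) - τ * w12 ^ 2) / l1 τ) (𝓝[>] 0)
        (𝓝 ((k * w22 - 0 * w12 ^ 2) / k)) :=
      ((t11.mul q22).sub (tτ.mul_const _)).div tl1 hk0.ne'
    rw [show (k * w22 - 0 * w12 ^ 2) / k = w22 by field_simp; ring] at h1
    refine h1.congr' ?_
    filter_upwards [hpos, el1] with τ hτ hl
    have := hprod τ
    have e : l2 τ = (n11 τ * n22 τ - (τ * w12) ^ 2) / l1 τ := by
      rw [← this]; field_simp
    rw [e]; field_simp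
  have el2 : ∀ᶠ τ in 𝓝[>] (0 : ℝ), 0 < l2 τ := by
    filter_upwards [hpos, q2.eventually (lt_mem_nhds hw)] with τ hτ h2
    exact (div_pos_iff_of_pos_right hτ).1 h2
  have ratio : Tendsto (fun τ : ℝ => τ / τ ^ (1 / p)) (𝓝[>] 0) (𝓝 0) := by
    have he : 0 < 1 - 1 / p := by rw [sub_pos, div_lt_one hp0]; exact hp
    have c : ContinuousAt (fun τ : ℝ => τ ^ (1 - 1 / p)) 0 :=
      (Real.continuous_rpow_const he.le).continuousAt
    have := c.tendsto.mono_left hmono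
    rw [Real.zero_rpow he.ne'] at this
    refine this.congr' ?_
    filter_upwards [hpos] with τ hτ
    rw [Real.rpow_sub hτ, Real.rpow_one]
  have q2p : Tendsto (fun τ => l2 τ ^ (1 / p) / τ ^ (1 / p)) (𝓝[>] 0) (𝓝 (w22 ^ (1 / p))) := by
    have h1 := q2.rpow_const (p := 1 / p) (Or.inr (by positivity))
    refine h1.congr' ?_
    filter_upwards [hpos, el2] with τ hτ h2
    rw [Real.div_rpow h2.le hτ.le]
  set β : ℝ → ℝ := fun τ => (l1 τ ^ (1 / p) - l2 τ ^ (1 / p)) / (l1 τ - l2 τ) with hβ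
  have tβ : Tendsto β (𝓝[>] 0) (𝓝 ((k ^ (1 / p) - 0 ^ (1 / p)) / (k - 0))) :=
    ((tl1.rpow_const (Or.inr (by positivity))).sub (tl2.rpow_const (Or.inr (by positivity)))).div
      (tl1.sub tl2) (by rw [sub_zero]; exact hk0.ne')
  have tβ2 : Tendsto (fun τ => β τ * (n22 τ / τ - l2 τ / τ) * (τ / τ ^ (1 / p))) (𝓝[>] 0)
      (𝓝 0) := by
    have := (tβ.mul (q22.sub q2)).mul ratio
    simpa using this
  have hkK : k ^ (1 / p) = K := by
    rw [hk, ← Real.rpow_mul hK.le, mul_one_div_cancel hp0.ne', Real.rpow_one]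
  have tK : Tendsto (fun τ => (l1 τ ^ (1 / p) - K) / τ ^ (1 / p)) (𝓝[>] 0) (𝓝 0) := by
    have hd : HasDerivAt (fun x : ℝ => x ^ (1 / p)) (1 / p * k ^ (1 / p - 1)) k :=
      Real.hasDerivAt_rpow_const (Or.inl hk0.ne')
    have o1 : (fun τ => l1 τ ^ (1 / p) - K) =O[𝓝[>] 0] fun τ => l1 τ - k := by
      have := hd.isBigO_sub.comp_tendsto tl1
      simpa only [Function.comp_def, hkK] using this
    have o2 : (fun τ => l1 τ - k) =O[𝓝[>] 0] fun τ : ℝ => τ := by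
      have h1 : Tendsto (fun τ => (l1 τ - k) / τ) (𝓝[>] 0) (𝓝 (-k + w11 + w22 - w22)) := by
        have h2 : Tendsto (fun τ : ℝ => -k + w11 + n22 τ / τ - l2 τ / τ) (𝓝[>] 0)
            (𝓝 (-k + w11 + w22 - w22)) := (tendsto_const_nhds.add q22).sub q2
        refine h2.congr' ?_
        filter_upwards [hpos] with τ hτ
        have : l1 τ = n11 τ + n22 τ - l2 τ := by linarith [hsum τ]
        rw [this]
        simp only [hn11]
        field_simp
        ring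
      refine Asymptotics.isBigO_of_div_tendsto_nhds ?_ _ h1
      filter_upwards [hpos] with τ hτ h0
      exact absurd h0 hτ.ne'
    have o3 : (fun τ : ℝ => τ) =o[𝓝[>] 0] fun τ => τ ^ (1 / p) := by
      refine (Asymptotics.isLittleO_iff_tendsto' ?_).2 ratio
      filter_upwards [hpos] with τ hτ h0
      have : 0 < τ ^ (1 / p) := by positivity
      exact absurd h0 this.ne'
    exact ((o1.trans o2).trans_isLittleO o3).tendsto_div_nhds_zero
  refine ⟨fun τ => l1 τ ^ (1 / p) - β τ * (l1 τ - n11 τ) - K, fun τ => β τ * (τ * w12),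
    fun τ => l2 τ ^ (1 / p) + β τ * (n22 τ - l2 τ), ?_, ?_, ?_, ?_⟩
  · filter_upwards [eΔ] with τ hΔτ
    have hne : l1 τ ≠ l2 τ := by
      intro h; have := hdiff τ; rw [h, sub_self] at this; linarith
    rw [cfc_mk (hsum τ) (hprod τ) hne]
    have hne' : l1 τ - l2 τ ≠ 0 := sub_ne_zero.2 hne
    have e : l1 τ ^ (1 / p) - β τ * l1 τ = l2 τ ^ (1 / p) - β τ * l2 τ := by
      simp only [hβ]; field_simp; ring
    have e' : (l1 τ ^ (1 / p) - l2 τ ^ (1 / p)) / (l1 τ - l2 τ) = β τ := rfl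
    rw [e']
    congr 1
    · ring
    · rw [e]; ring
  · have : (fun τ => (l1 τ ^ (1 / p) - β τ * (l1 τ - n11 τ) - K) / τ ^ (1 / p))
        =ᶠ[𝓝[>] 0] fun τ => (l1 τ ^ (1 / p) - K) / τ ^ (1 / p)
          - β τ * (n22 τ / τ - l2 τ / τ) * (τ / τ ^ (1 / p)) := by
      filter_upwards [hpos] with τ hτ
      have h1 : l1 τ - n11 τ = n22 τ - l2 τ := by linarith [hsum τ]
      have h2 : 0 < τ ^ (1 / p) := by positivity
      rw [h1]
      field_simp
      ring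
    rw [tendsto_congr' this]
    simpa using tK.sub tβ2
  · have : (fun τ => β τ * (τ * w12) / τ ^ (1 / p))
        = fun τ => β τ * w12 * (τ / τ ^ (1 / p)) := by ext τ; ring
    rw [this]
    simpa using (tβ.mul_const w12).mul ratio
  · have : (fun τ => (l2 τ ^ (1 / p) + β τ * (n22 τ - l2 τ)) / τ ^ (1 / p))
        =ᶠ[𝓝[>] 0] fun τ => l2 τ ^ (1 / p) / τ ^ (1 / p)
          + β τ * (n22 τ / τ - l2 τ / τ) * (τ / τ ^ (1 / p)) := by
      filter_upwards [hpos] with τ hτ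
      have h2 : 0 < τ ^ (1 / p) := by positivity
      field_simp
    rw [tendsto_congr' this]
    simpa using q2p.add tβ2

end Pool.Agent.H93M
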