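import Pool.Agent.H93M.D

open Matrix MeasureTheory Filter Topology
open scoped ENNReal ComplexInnerProductSpace ComplexOrder

namespace Pool.Agent.H93M

/-- real vectors -/
noncomputable def vec (a b : ℝ) : EuclideanSpace ℂ (Fin 2) := !₂[(a : ℂ), (b : ℂ)]

lemma inner_vec (a b a' b' : ℝ) : ⟪vec a b, vec a' b'⟫ = ((a * a' + b * b' : ℝ) : ℂ) := by
  rw [PiLp.inner_apply, Fin.sum_univ_two]
  simp [vec]
  ring

lemma exists_basis {C S : ℝ} (h : C ^ 2 + S ^ 2 = 1) :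
    ∃ b : OB 2, b 0 = vec C S ∧ b 1 = vec (-S) C := by
  have hn : ∀ a b : ℝ, a ^ 2 + b ^ 2 = 1 → ‖vec a b‖ = 1 := fun a b hab => by
    have e : ‖vec a b‖ ^ 2 = 1 := by
      rw [norm_two]
      simp [vec]
      exact hab
    have e2 : (‖vec a b‖ - 1) * (‖vec a b‖ + 1) = 0 := by linear_combination e
    rcases mul_eq_zero.1 e2 with e3 | e3
    · linarith
    · linarith [norm_nonneg (vec a b)]
  have hi : ⟪vec C S, vec (-S) C⟫ = 0 := by
    rw [inner_vec]; norm_num; ring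
  have hi' : ⟪vec (-S) C, vec C S⟫ = 0 := by
    rw [inner_vec]; norm_num; ring
  have ho : Orthonormal ℂ ![vec C S, vec (-S) C] := by
    constructor
    · intro i
      fin_cases i
      · exact hn C S h
      · exact hn (-S) C (by linarith)
    · intro i j hij
      fin_cases i <;> fin_cases j
      · exact absurd rfl hij
      · exact hi
      · exact hi'
      · exact absurd rfl hij
  have hsp : ⊤ ≤ Submodule.span ℂ (Set.range ![vec C S, vec (-S) C]) :=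
    (ho.linearIndependent.span_eq_top_of_card_eq_finrank (by simp)).ge
  refine ⟨OrthonormalBasis.mk ho hsp, ?_, ?_⟩
  · rw [OrthonormalBasis.coe_mk]; rfl
  · rw [OrthonormalBasis.coe_mk]; rfl

lemma qf_mk_vec (a b d x y : ℝ) : qf (mk a b d) (vec x y) = a * x ^ 2 + 2 * b * (x * y) + d * y ^ 2 := by
  rw [qf_mk]
  simp [vec, mx]

/-- the eigenbasis of the difference -/
lemma eig_Z {R C S : ℝ} (h : C ^ 2 + S ^ 2 = 1) {b : OB 2} (h0 : b 0 = vec C S)
    (h1 : b 1 = vec (-S) C) :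
    Eig (mk (R * C ^ 2 - S ^ 2) ((R + 1) * (C * S)) (R * S ^ 2 - C ^ 2)) b ![R, -1] := by
  have h' : (C : ℂ) ^ 2 + (S : ℂ) ^ 2 = 1 := by exact_mod_cast h
  intro j
  fin_cases j
  · show Matrix.toEuclideanLin _ (b 0) = _ • b 0
    rw [h0]
    ext i
    fin_cases i
    · simp [Matrix.toLpLin_apply, mk, dotProduct, Fin.sum_univ_two, vec]
      linear_combination (R * C : ℂ) * h'
    · simp [Matrix.toLpLin_apply, mk, dotProduct, Fin.sum_univ_two, vec]
      linear_combination (R * S : ℂ) * h'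
  · show Matrix.toEuclideanLin _ (b 1) = _ • b 1
    rw [h1]
    ext i
    fin_cases i
    · simp [Matrix.toLpLin_apply, mk, dotProduct, Fin.sum_univ_two, vec]
      linear_combination (S : ℂ) * h'
    · simp [Matrix.toLpLin_apply, mk, dotProduct, Fin.sum_univ_two, vec]
      linear_combination (-C : ℂ) * h'

/-- reduction of the failure to a two-dimensional inequality -/
lemma fail_of {p : ℝ} (hp : 1 < p) {q : ℝ≥0∞} (h1 : 1 ≤ q) {R C S : ℝ} (hR : 0 < R)
    (h : C ^ 2 + S ^ 2 = 1) (hC : 0 < C) (hS : 0 < S) (hRS : R * S ^ 2 < C ^ 2)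
    (hkey : ∀ (κ : ℝ), 0 < κ → ∀ d1 d2 : ℝ → ℝ,
      Tendsto (fun τ => d1 τ / τ ^ (1 / p)) (𝓝[>] 0) (𝓝 (κ * S ^ 2)) →
      Tendsto (fun τ => d2 τ / τ ^ (1 / p)) (𝓝[>] 0) (𝓝 (κ * C ^ 2)) →
      ∀ᶠ τ in 𝓝[>] (0 : ℝ), L q ![R, -1] + 2 * τ < L q ![R + d1 τ, -1 + d2 τ]) :
    ¬ Mono p q := by
  haveI : Fact (1 ≤ q) := ⟨h1⟩
  have hp0 : 0 < p := by linarith
  set z11 := R * C ^ 2 - S ^ 2 with hz11
  set z12 := (R + 1) * (C * S) with hz12
  set z22 := R * S ^ 2 - C ^ 2 with hz22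
  have hd : 0 < -z22 := by rw [hz22]; linarith
  have hz12' : 0 < z12 := by rw [hz12]; positivity
  -- a large `K`
  obtain ⟨K, hK0, hK1, hK2⟩ : ∃ K : ℝ, 1 < K ∧ 0 < K - z11 ∧ z12 ^ 2 < (K - z11) * (-z22) := by
    refine ⟨max 2 (z11 + (z12 ^ 2 + 1) / (-z22)), ?_, ?_, ?_⟩
    · exact lt_of_lt_of_le (by norm_num) (le_max_left _ _)
    · have h2 := le_max_right (2 : ℝ) (z11 + (z12 ^ 2 + 1) / (-z22))
      have h3 : 0 < (z12 ^ 2 + 1) / (-z22) := by positivity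
      linarith
    · have h2 := le_max_right (2 : ℝ) (z11 + (z12 ^ 2 + 1) / (-z22))
      have h3 : (z12 ^ 2 + 1) / (-z22) ≤ max 2 (z11 + (z12 ^ 2 + 1) / (-z22)) - z11 := by linarith
      rw [div_le_iff₀ hd] at h3
      linarith
  have hKp : 0 < K := by linarith
  set Y := mk (K - z11) (-z12) (-z22) with hY
  have hYh : Y.IsHermitian := mk_herm _ _ _
  -- positive definiteness
  obtain ⟨m, hm, hmY⟩ : ∃ m : ℝ, 0 < m ∧ ∀ x, m * ‖x‖ ^ 2 ≤ qf Y x := by
    set D := (K - z11) * (-z22) - z12 ^ 2 with hD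
    have hD0 : 0 < D := by rw [hD]; linarith
    set T := (K - z11) + (-z22) with hT
    have hT0 : 0 < T := by rw [hT]; linarith
    refine ⟨D / T, by positivity, fun x => ?_⟩
    rw [hY, qf_mk, norm_two]
    -- `(A - m)(x) ≥ 0` with `A - m` positive semidefinite
    have s1 := sq_form (K - z11) (-z12) x
    have s2 := sq_form (-z12) (-z22) x
    have e : D / T * (‖x 0‖ ^ 2 + ‖x 1‖ ^ 2) = (D * ‖x 0‖ ^ 2 + D * ‖x 1‖ ^ 2) / T := by
      field_simp
    rw [e, div_le_iff₀ hT0]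
    rw [hD, hT]
    nlinarith [s1, s2]
  have hYp : Y.PosDef := posDef_of_qf hYh hm hmY
  -- powers of `Y`
  obtain ⟨w11, w12, w22, hW, hw⟩ : ∃ w11 w12 w22 : ℝ,
      cfc (fun x : ℝ => x ^ p) Y = mk w11 w12 w22 ∧ 0 < w22 := by
    set T := (K - z11) + (-z22) with hT
    set Dl := ((K - z11) - (-z22)) ^ 2 + 4 * z12 ^ 2 with hDl
    have hDl0 : 0 < Dl := by rw [hDl]; positivity
    have hs := Real.sqrt_pos.2 hDl0
    have hss := Real.sq_sqrt hDl0.le
    have g1 : (T + √Dl) / 2 + (T - √Dl) / 2 = (K - z11) + (-z22) := by rw [hT]; ring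
    have g2 : (T + √Dl) / 2 * ((T - √Dl) / 2) = (K - z11) * (-z22) - (-z12) ^ 2 := by
      have : (T + √Dl) / 2 * ((T - √Dl) / 2) = (T ^ 2 - (√Dl) ^ 2) / 4 := by ring
      rw [this, hss, hT, hDl]; ring
    have g3 : (T + √Dl) / 2 ≠ (T - √Dl) / 2 := by
      intro h; linarith
    have hc := cfc_mk g1 g2 g3 (fun x : ℝ => x ^ p)
    refine ⟨_, _, _, hc, ?_⟩
    have h5 := le_qf_cfc hYh (fun x : ℝ => x ^ p) (η := m ^ p) (fun i =>
      Real.rpow_le_rpow hm.le (eig_ge hYh hmY i) hp0.le) (vec 0 1)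
    rw [hY, hc, qf_mk_vec] at h5
    have h6 : ‖vec 0 1‖ ^ 2 = 1 := by rw [norm_two]; simp [vec]
    rw [h6] at h5
    have h7 : 0 < m ^ p := by positivity
    linarith
  obtain ⟨e11, e12, e22, hcfc, t11, t12, t22⟩ := asym hp (w11 := w11) (w12 := w12) hKp hw
  obtain ⟨b, hb0, hb1⟩ := exists_basis h
  set κ := w22 ^ (1 / p) with hκ
  have hκ0 : 0 < κ := by positivity
  have td1 : Tendsto (fun τ => (e11 τ * C ^ 2 + 2 * e12 τ * (C * S) + e22 τ * S ^ 2) / τ ^ (1 / p))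
      (𝓝[>] 0) (𝓝 (κ * S ^ 2)) := by
    have := ((t11.mul_const (C ^ 2)).add (t12.mul_const (2 * (C * S)))).add (t22.mul_const (S ^ 2))
    simp only [zero_mul, zero_add] at this
    refine this.congr fun τ => ?_
    ring
  have td2 : Tendsto (fun τ => (e11 τ * (-S) ^ 2 + 2 * e12 τ * (-S * C) + e22 τ * C ^ 2)
      / τ ^ (1 / p)) (𝓝[>] 0) (𝓝 (κ * C ^ 2)) := by
    have := ((t11.mul_const (S ^ 2)).add (t12.mul_const (-2 * (C * S)))).add
      (t22.mul_const (C ^ 2))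
    simp only [zero_mul, zero_add] at this
    refine this.congr fun τ => ?_
    ring
  have hk := hkey κ hκ0 _ _ td1 td2
  have hmem : ∀ᶠ τ in 𝓝[>] (0 : ℝ), τ ∈ Set.Ioo (0 : ℝ) 1 := Ioo_mem_nhdsGT one_pos
  obtain ⟨τ, ⟨hcf, hkk⟩, hτ0, hτ1⟩ := ((hcfc.and hk).and hmem).exists
  intro hm'
  have hXp : (mk K 0 τ).PosDef := by
    refine posDef_of_qf (mk_herm _ _ _) hτ0 fun x => ?_
    rw [qf_mk, norm_two]
    nlinarith [sq_nonneg ‖x 0‖]
  have hmono := hm' 2 (by norm_num) (mk K 0 τ) Y hXp hYp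
    (show (1 - τ) ∈ Set.Icc (0 : ℝ) 1 by constructor <;> linarith)
    (show (1 : ℝ) ∈ Set.Icc (0 : ℝ) 1 by constructor <;> norm_num) (by linarith)
  -- the left-hand side
  have hpm : powerMean p (1 - τ) (mk K 0 τ) Y = mk (K + e11 τ) (e12 τ) (e22 τ) := by
    rw [← hcf]
    unfold powerMean
    have hne : K ≠ τ := by linarith
    have hX : cfc (fun x : ℝ => x ^ p) (mk K 0 τ) = mk (K ^ p) 0 (τ ^ p) := by
      rw [cfc_mk (l1 := K) (l2 := τ) rfl (by ring) hne]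
      have : K - τ ≠ 0 := sub_ne_zero.2 hne
      congr 1
      · field_simp; ring
      · ring
      · field_simp; ring
    rw [hX, hW, smul_mk, smul_mk, mk_add]
    congr 2 <;> ring
  have hZ : mk K 0 0 - Y = mk z11 z12 z22 := by
    rw [hY, mk_sub]; congr 1 <;> ring
  have hlow : L q ![R + (e11 τ * C ^ 2 + 2 * e12 τ * (C * S) + e22 τ * S ^ 2),
      -1 + (e11 τ * (-S) ^ 2 + 2 * e12 τ * (-S * C) + e22 τ * C ^ 2)]
        ≤ schatten q (powerMean p (1 - τ) (mk K 0 τ) Y - Y) := by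
    rw [hpm]
    have e : mk (K + e11 τ) (e12 τ) (e22 τ) - Y
        = mk (z11 + e11 τ) (z12 + e12 τ) (z22 + e22 τ) := by
      rw [hY, mk_sub]; congr 1 <;> ring
    rw [e]
    have h2 := peierls' h1 (mk_herm (z11 + e11 τ) (z12 + e12 τ) (z22 + e22 τ)) b
    have e2 : (fun i => qf (mk (z11 + e11 τ) (z12 + e12 τ) (z22 + e22 τ)) (b i))
        = ![R + (e11 τ * C ^ 2 + 2 * e12 τ * (C * S) + e22 τ * S ^ 2),
      -1 + (e11 τ * (-S) ^ 2 + 2 * e12 τ * (-S * C) + e22 τ * C ^ 2)] := by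
      have h4 : (C ^ 2 + S ^ 2) ^ 2 = 1 := by rw [h]; norm_num
      ext i
      fin_cases i
      · show qf _ (b 0) = R + (e11 τ * C ^ 2 + 2 * e12 τ * (C * S) + e22 τ * S ^ 2)
        rw [hb0, qf_mk_vec, hz11, hz12, hz22]
        linear_combination R * h4
      · show qf _ (b 1) = -1 + (e11 τ * (-S) ^ 2 + 2 * e12 τ * (-S * C) + e22 τ * C ^ 2)
        rw [hb1, qf_mk_vec, hz11, hz12, hz22]
        linear_combination -h4
    rw [e2] at h2
    exact h2
  -- the right-hand side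
  have hupp : schatten q (powerMean p 1 (mk K 0 τ) Y - Y) ≤ L q ![R, -1] + 2 * τ := by
    rw [powerMean_one hp0.ne' hXp]
    have e : mk K 0 τ - Y = (1 : ℝ) • mk z11 z12 z22 + τ • mk 0 0 1 := by
      rw [hY, mk_sub, smul_mk, smul_mk, mk_add]; congr 1 <;> ring
    rw [e]
    refine (schatten_lin (mk_herm _ _ _) (mk_herm _ _ _) _ _).trans ?_
    rw [abs_one, one_mul, abs_of_pos hτ0, schatten_eig h1 (mk_herm _ _ _) (eig_Z h hb0 hb1)]
    have h3 : schatten q (mk 0 0 1) ≤ 2 := by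
      rw [schatten_canon h1 (mk_herm 0 0 1)]
      refine (L_le_sum q _).trans ?_
      rw [Fin.sum_univ_two]
      have h4 : ∀ i, |(mk_herm 0 0 1).eigenvalues i| ≤ 1 := by
        intro i
        rcases eig_two (mk_herm 0 0 1) (mk_mul_mk (l1 := 1) (l2 := 0) (by ring) (by ring)) i
          with h5 | h5 <;> rw [h5] <;> norm_num
      linarith [h4 0, h4 1]
    nlinarith
  have hfin : schatten q (powerMean p (1 - τ) (mk K 0 τ) Y - Y)
      ≤ schatten q (powerMean p 1 (mk K 0 τ) Y - Y) := hmono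
  linarith

end Pool.Agent.H93M
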