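import Pool.Agent.H93M.E

open Matrix MeasureTheory Filter Topology
open scoped ENNReal ComplexInnerProductSpace ComplexOrder

namespace Pool.Agent.H93M

lemma tendsto_rpow_zero {p : ℝ} (hp : 1 < p) :
    Tendsto (fun τ : ℝ => τ ^ (1 / p)) (𝓝[>] 0) (𝓝 0) := by
  have he : 0 < 1 / p := by positivity
  have c : ContinuousAt (fun τ : ℝ => τ ^ (1 / p)) 0 :=
    (Real.continuous_rpow_const he.le).continuousAt
  have := c.tendsto.mono_left (nhdsWithin_le_nhds (s := Set.Ioi (0 : ℝ)))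
  rwa [Real.zero_rpow he.ne'] at this

lemma tendsto_ratio {p : ℝ} (hp : 1 < p) :
    Tendsto (fun τ : ℝ => τ / τ ^ (1 / p)) (𝓝[>] 0) (𝓝 0) := by
  have hp0 : 0 < p := by linarith
  have he : 0 < 1 - 1 / p := by rw [sub_pos, div_lt_one hp0]; exact hp
  have c : ContinuousAt (fun τ : ℝ => τ ^ (1 - 1 / p)) 0 :=
    (Real.continuous_rpow_const he.le).continuousAt
  have := c.tendsto.mono_left (nhdsWithin_le_nhds (s := Set.Ioi (0 : ℝ)))
  rw [Real.zero_rpow he.ne'] at this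
  refine this.congr' ?_
  filter_upwards [self_mem_nhdsWithin] with τ hτ
  rw [Real.rpow_sub hτ, Real.rpow_one]

/-- positivity from the limit -/
lemma ev_pos {p : ℝ} {f : ℝ → ℝ} {l : ℝ} (hl : 0 < l)
    (hf : Tendsto (fun τ => f τ / τ ^ (1 / p)) (𝓝[>] 0) (𝓝 l)) :
    ∀ᶠ τ in 𝓝[>] (0 : ℝ), 0 < f τ := by
  filter_upwards [self_mem_nhdsWithin, hf.eventually (lt_mem_nhds hl)] with τ hτ h2
  have : (0 : ℝ) < τ ^ (1 / p) := Real.rpow_pos_of_pos hτ _
  exact (div_pos_iff_of_pos_right this).1 h2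

lemma ev_zero {p : ℝ} (hp : 1 < p) {f : ℝ → ℝ} {l : ℝ}
    (hf : Tendsto (fun τ => f τ / τ ^ (1 / p)) (𝓝[>] 0) (𝓝 l)) :
    Tendsto f (𝓝[>] 0) (𝓝 0) := by
  have := hf.mul (tendsto_rpow_zero hp)
  rw [mul_zero] at this
  refine this.congr' ?_
  filter_upwards [self_mem_nhdsWithin] with τ hτ
  have : (0 : ℝ) < τ ^ (1 / p) := Real.rpow_pos_of_pos hτ _
  field_simp

/-- tangent line inequality -/
lemma tangent {Q : ℝ} (hQ : 1 ≤ Q) {a x : ℝ} (ha : 0 < a) (hx : 0 ≤ a + x) :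
    a ^ Q + Q * a ^ (Q - 1) * x ≤ (a + x) ^ Q := by
  have h1 := one_add_mul_self_le_rpow_one_add (s := x / a)
    (by rw [le_div_iff₀ ha]; linarith) hQ
  have h2 : (a + x) ^ Q = a ^ Q * (1 + x / a) ^ Q := by
    rw [← Real.mul_rpow ha.le (by
      have : 1 + x / a = (a + x) / a := by field_simp
      rw [this]; positivity)]
    congr 1; field_simp
  have h3 : a ^ (Q - 1) = a ^ Q / a := by rw [Real.rpow_sub_one ha.ne']
  have h4 : 0 < a ^ Q := by positivity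
  rw [h2, h3]
  have h5 := mul_le_mul_of_nonneg_left h1 h4.le
  refine le_trans (le_of_eq ?_) h5
  field_simp

lemma not_mono_top {p : ℝ} (hp : 1 < p) : ¬ Mono p ⊤ := by
  have hS : (1 / 2 : ℝ) ^ 2 = 1 / 4 := by norm_num
  have hC : (√(3 / 4 : ℝ)) ^ 2 = 3 / 4 := Real.sq_sqrt (by norm_num)
  refine fail_of hp le_top (R := 2) (C := √(3 / 4)) (S := 1 / 2) (by norm_num)
    (by rw [hC, hS]; norm_num) (by positivity) (by norm_num) (by rw [hC, hS]; norm_num) ?_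
  intro κ hκ d1 d2 h1 h2
  have h3 : Tendsto (fun τ => (d1 τ - 2 * τ) / τ ^ (1 / p)) (𝓝[>] 0)
      (𝓝 (κ * (1 / 2) ^ 2 - 2 * 0)) := by
    refine (h1.sub ((tendsto_ratio hp).const_mul 2)).congr fun τ => ?_
    ring
  have h4 := ev_pos (by rw [hS]; linarith) h3
  filter_upwards [h4] with τ hτ
  have e1 : L ⊤ ![(2 : ℝ), -1] = 2 := by
    rw [L_top]
    apply le_antisymm
    · refine ciSup_le fun i => ?_
      fin_cases i <;> simp
    · have := le_ciSup (f := fun i => |(![(2 : ℝ), -1]) i|) (Set.finite_range _).bddAbove 0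
      simpa using this
  have e2 := le_L (⊤ : ℝ≥0∞) ![2 + d1 τ, -1 + d2 τ] 0
  have e3 : |(![2 + d1 τ, -1 + d2 τ]) 0| = |2 + d1 τ| := rfl
  rw [e3] at e2
  rw [e1]
  linarith [le_abs_self (2 + d1 τ)]

lemma not_mono_fin {p : ℝ} (hp : 1 < p) {q : ℝ≥0∞} (h1 : 1 ≤ q) (htop : q ≠ ⊤) (h2 : q ≠ 2) :
    ¬ Mono p q := by
  set Q := q.toReal with hQ
  have hQ1 : 1 ≤ Q := by rw [hQ, ← ENNReal.toReal_one]; exact ENNReal.toReal_mono htop h1
  have hQ2 : Q ≠ 2 := by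
    intro h
    apply h2
    rw [← ENNReal.ofReal_toReal htop, ← hQ, h]; norm_num
  have hQ0 : 0 < Q := by linarith
  obtain ⟨R, hR, hR1, hR2⟩ : ∃ R : ℝ, 0 < R ∧ R < R ^ (Q / 2) ∧ R ^ (Q / 2) < R ^ (Q - 1) := by
    rcases lt_or_gt_of_ne hQ2 with h | h
    · refine ⟨1 / 2, by norm_num, ?_, ?_⟩
      · have := Real.rpow_lt_rpow_of_exponent_gt (show (0 : ℝ) < 1 / 2 by norm_num)
          (by norm_num) (show Q / 2 < 1 by linarith)
        rwa [Real.rpow_one] at this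
      · exact Real.rpow_lt_rpow_of_exponent_gt (by norm_num) (by norm_num) (by linarith)
    · refine ⟨2, by norm_num, ?_, ?_⟩
      · have := Real.rpow_lt_rpow_of_exponent_lt (show (1 : ℝ) < 2 by norm_num)
          (show 1 < Q / 2 by linarith)
        rwa [Real.rpow_one] at this
      · exact Real.rpow_lt_rpow_of_exponent_lt (by norm_num) (by linarith)
  set r := R ^ (Q / 2) with hr
  have hr0 : 0 < r := by positivity
  have hσ1 : 0 < 1 / (1 + r) := by positivity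
  have hσ2 : 0 < r / (1 + r) := by positivity
  have hS2 : (√(1 / (1 + r))) ^ 2 = 1 / (1 + r) := Real.sq_sqrt hσ1.le
  have hC2 : (√(r / (1 + r))) ^ 2 = r / (1 + r) := Real.sq_sqrt hσ2.le
  refine fail_of hp h1 (R := R) (C := √(r / (1 + r))) (S := √(1 / (1 + r))) hR
    (by rw [hS2, hC2]; field_simp; ring) (Real.sqrt_pos.2 hσ2) (Real.sqrt_pos.2 hσ1)
    (by
      rw [hS2, hC2, mul_one_div]
      exact div_lt_div_of_pos_right hR1 (by positivity)) ?_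
  intro κ hκ d1 d2 t1 t2
  rw [hS2] at t1
  rw [hC2] at t2
  set Φ : ℝ := (R ^ Q + 1) ^ (1 / Q) with hΦ
  have hΦ0 : 0 < Φ := by positivity
  have hΦQ : Φ ^ Q = R ^ Q + 1 := by
    rw [hΦ, ← Real.rpow_mul (by positivity), one_div_mul_cancel hQ0.ne', Real.rpow_one]
  set M : ℝ := (Φ + 2) ^ (Q - 1) with hM
  have t3 : Tendsto (fun τ => (R ^ (Q - 1) * d1 τ - d2 τ - 2 * M * τ) / τ ^ (1 / p)) (𝓝[>] 0)
      (𝓝 (R ^ (Q - 1) * (κ * (1 / (1 + r))) - κ * (r / (1 + r)) - 2 * M * 0)) := by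
    refine (((t1.const_mul (R ^ (Q - 1))).sub t2).sub ((tendsto_ratio hp).const_mul (2 * M))).congr
      fun τ => ?_
    ring
  have hl : 0 < R ^ (Q - 1) * (κ * (1 / (1 + r))) - κ * (r / (1 + r)) - 2 * M * 0 := by
    have : R ^ (Q - 1) * (κ * (1 / (1 + r))) - κ * (r / (1 + r)) - 2 * M * 0
        = κ * (R ^ (Q - 1) - r) / (1 + r) := by field_simp; ring
    rw [this]
    exact div_pos (mul_pos hκ (sub_pos.2 hR2)) (by positivity)
  have h4 := ev_pos hl t3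
  have h5 := (ev_zero hp t1).eventually (lt_mem_nhds (show -R < 0 by linarith))
  have h6 := (ev_zero hp t2).eventually (gt_mem_nhds (show (0 : ℝ) < 1 by norm_num))
  have h7 : ∀ᶠ τ in 𝓝[>] (0 : ℝ), τ ∈ Set.Ioo (0 : ℝ) 1 := Ioo_mem_nhdsGT one_pos
  filter_upwards [h4, h5, h6, h7] with τ k4 k5 k6 k7
  rw [L_lt h1 htop, L_lt h1 htop, Fin.sum_univ_two, Fin.sum_univ_two]
  have e1 : (|(![R, -1] : Fin 2 → ℝ) 0| ^ q.toReal + |(![R, -1] : Fin 2 → ℝ) 1| ^ q.toReal)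
      = R ^ Q + 1 := by
    simp [abs_of_pos hR, hQ]
  have e2 : (|(![R + d1 τ, -1 + d2 τ] : Fin 2 → ℝ) 0| ^ q.toReal
      + |(![R + d1 τ, -1 + d2 τ] : Fin 2 → ℝ) 1| ^ q.toReal)
      = (R + d1 τ) ^ Q + (1 + -d2 τ) ^ Q := by
    have a1 : |R + d1 τ| = R + d1 τ := abs_of_pos (by linarith)
    have a2 : |-1 + d2 τ| = 1 + -d2 τ := by
      rw [abs_of_neg (by linarith)]; ring
    show |R + d1 τ| ^ q.toReal + |-1 + d2 τ| ^ q.toReal = _
    rw [a1, a2]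
  rw [e1, e2]
  have g1 := tangent hQ1 hR (x := d1 τ) (by linarith)
  have g2 := tangent hQ1 one_pos (x := -d2 τ) (by linarith)
  rw [Real.one_rpow, Real.one_rpow] at g2
  have hB : 0 < Φ + 2 * τ := by linarith [k7.1]
  have g3 := tangent hQ1 hB (x := -(2 * τ)) (by linarith)
  rw [show Φ + 2 * τ + -(2 * τ) = Φ by ring, hΦQ] at g3
  have g4 : (Φ + 2 * τ) ^ (Q - 1) ≤ M :=
    Real.rpow_le_rpow hB.le (by linarith [k7.2]) (by linarith)
  have g5 : Q * (Φ + 2 * τ) ^ (Q - 1) * (2 * τ) ≤ Q * (2 * M * τ) := by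
    have := mul_le_mul_of_nonneg_left g4 (show 0 ≤ Q * (2 * τ) by nlinarith [k7.1])
    linarith
  have g6 : Q * (2 * M * τ) < Q * (R ^ (Q - 1) * d1 τ - d2 τ) :=
    mul_lt_mul_of_pos_left (by linarith) hQ0
  have g7 : (Φ + 2 * τ) ^ Q < (R + d1 τ) ^ Q + (1 + -d2 τ) ^ Q := by
    nlinarith
  have g8 : Φ + 2 * τ = ((Φ + 2 * τ) ^ Q) ^ (1 / Q) := by
    rw [← Real.rpow_mul hB.le, mul_one_div_cancel hQ0.ne', Real.rpow_one]
  have g9 : (R ^ Q + 1) ^ (1 / q.toReal) = Φ := rfl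
  rw [g9, g8]
  exact Real.rpow_lt_rpow (by positivity) g7 (by positivity)

/-- **Exponents `p > 1`, all Schatten metrics but the Euclidean one.** -/
theorem not_mono_gt_one {p : ℝ} (hp : 1 < p) {q : ℝ≥0∞} (h1 : 1 ≤ q) (h2 : q ≠ 2) :
    ¬ Mono p q := by
  by_cases htop : q = ⊤
  · rw [htop]; exact not_mono_top hp
  · exact not_mono_fin hp h1 htop h2

end Pool.Agent.H93M
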